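import Pool.Agent.MP_3ce0a0_al.Q2T10.Spec

/-!
The one-edge splitting and the hierarchy.
-/

set_option autoImplicit false

namespace Pool.Agent.MP_3ce0a0_al.Q2T10

open Q2T1 Q2T3 MulAction

namespace RA

variable {G : Type} [Group G]

/-- The translates of an edge. -/
def Kab {X : Type} [MulAction G X] (a b x y : X) : Prop :=
  ∃ h : G, (h • a = x ∧ h • b = y) ∨ (h • a = y ∧ h • b = x)

theorem stab {T T' : GT G} {K : T.X → T.X → Prop} {π : T.X → T'.X} (c : IsCol T T' K π)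
    (hK : ∀ (g : G) x y, K x y → K (g • x) (g • y)) {x y : T.X} (hd : dist x y = 1) (hk : K x y)
    (h : G) : (h • π x = π x ∧ h • π y = π y) ↔ (h • x = x ∧ h • y = y) := by
  constructor
  · rintro ⟨h1, h2⟩
    exact c.uniq (h • x) (h • y) x y (by rw [dist_smul, hd]) hd (hK h x y hk) hk
      (by rw [c.smul, h1]) (by rw [c.smul, h2])
  · rintro ⟨h1, h2⟩
    exact ⟨by rw [← c.smul, h1], by rw [← c.smul, h2]⟩

theorem adm_col {Q : Set G} {T T' : GT G} {K : T.X → T.X → Prop} {π : T.X → T'.X}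
    (c : IsCol T T' K π) (hK : ∀ (g : G) x y, K x y → K (g • x) (g • y)) (hA : Adm Q T) :
    Adm Q T' where
  ell g hg := by
    obtain ⟨x, hx⟩ := hA.ell g hg
    exact ⟨π x, by rw [← c.smul, hx]⟩
  edge u w hd g h1 h2 := by
    obtain ⟨x, y, hxy, hk, rfl, rfl⟩ := c.lift u w hd
    obtain ⟨h3, h4⟩ := (stab c hK hxy hk g).1 ⟨h1, h2⟩
    exact hA.edge x y hxy g h3 h4
  cen u w hd e he h1 h2 g := by
    obtain ⟨x, y, hxy, hk, rfl, rfl⟩ := c.lift u w hd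
    obtain ⟨h3, h4⟩ := (stab c hK hxy hk e).1 ⟨h1, h2⟩
    rw [stab c hK hxy hk g]
    exact hA.cen x y hxy e he h3 h4 g

/-- The restriction of the action to a subgroup. -/
def res (T : GT G) (H : Subgroup G) : GT H where
  X := T.X
  ne := T.ne
  ni := fun g _ x h => T.ni (g : G) trivial x h

theorem adm_res {Q : Set G} {T : GT G} (hA : Adm Q T) (H : Subgroup G) :
    Adm (tr Q H) (res T H) where
  ell g hg := hA.ell (g : G) hg
  edge x y hd g h1 h2 := hA.edge x y hd (g : G) h1 h2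
  cen x y hd e he h1 h2 g := by
    have h := hA.cen x y hd (e : G) (fun h => he (Subtype.ext h)) h1 h2 (g : G)
    refine Iff.trans ?_ h
    exact ⟨fun k => congrArg Subtype.val k, fun k => Subtype.ext k⟩

theorem simp_unit : IsSimp Unit where
  four _ _ _ _ := le_max_left _ _
  ex_med x _ _ := ⟨x, btw_left _ _, btw_left _ _, btw_left _ _⟩
  int x _ := ⟨0, by rw [Nat.cast_zero]; exact dist_self x⟩
  geo _ _ h := (h rfl).elim

theorem unit_ne (x y : Unit) : dist x y ≠ 1 := by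
  rw [show dist x y = 0 from dist_self x]
  exact zero_ne_one

/-- The tree with one vertex. -/
def pt (G : Type) [Group G] : GT G where
  X := Unit
  i := ⟨fun _ => isometry_subsingleton⟩
  s := simp_unit
  ne := ⟨()⟩
  ni := fun _ _ _ h => (unit_ne _ _ h).elim

theorem hier_pt {Q : Set G} (hQ : ∀ g, g ∈ Q) (hG : Group.FG G) : Hier Q (pt G) where
  cocpt := ⟨Set.univ, Set.finite_univ (α := Unit), fun _ => ⟨1, trivial⟩,
    fun _ _ _ => ⟨1, trivial, trivial⟩⟩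
  ell g := ⟨fun _ => ⟨(), rfl⟩, fun _ => hQ g⟩
  fg x := by
    have h : stabilizer G x = ⊤ := eq_top_iff.2 fun _ _ => rfl
    rw [h]
    exact hG.out
  cen x y h := (unit_ne x y h).elim

end RA

open RA

theorem rowDown : StmtCol → StmtSer → StmtDown := by
  intro hCol hSer G _ Q T g hA hg
  obtain ⟨a, ha, hb⟩ := ((hSer G T).2 g).1 hg
  obtain ⟨b, hab, hbt⟩ := IsSimp.geo a (g • a) ha.symm
  have hK : ∀ (k : G) x y, Kab (G := G) a b x y → Kab (G := G) a b (k • x) (k • y) := by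
    rintro k x y ⟨h, h1 | h1⟩
    · exact ⟨k * h, Or.inl ⟨by rw [mul_smul, h1.1], by rw [mul_smul, h1.2]⟩⟩
    · exact ⟨k * h, Or.inr ⟨by rw [mul_smul, h1.1], by rw [mul_smul, h1.2]⟩⟩
  have hk0 : Kab (G := G) a b a b := ⟨1, Or.inl ⟨one_smul _ _, one_smul _ _⟩⟩
  obtain ⟨T', π, c⟩ := hCol G T (Kab (G := G) a b)
    (fun x y ⟨h, h1⟩ => ⟨h, h1.symm⟩) hK
  have hE : ∀ u w : T'.X, dist u w = 1 →
      ∃ h : G, (h • π a = u ∧ h • π b = w) ∨ (h • π a = w ∧ h • π b = u) := by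
    intro u w hd
    obtain ⟨x, y, -, ⟨h, h1 | h1⟩, rfl, rfl⟩ := c.lift u w hd
    · exact ⟨h, Or.inl ⟨by rw [← c.smul, h1.1], by rw [← c.smul, h1.2]⟩⟩
    · exact ⟨h, Or.inr ⟨by rw [← c.smul, h1.1], by rw [← c.smul, h1.2]⟩⟩
  have hE' : ∀ u w : T'.X, dist u w = 1 →
      ∃ h : G, h • u ∈ ({π a, π b} : Set T'.X) ∧ h • w ∈ ({π a, π b} : Set T'.X) := by
    intro u w hd
    obtain ⟨h, ⟨rfl, rfl⟩ | ⟨rfl, rfl⟩⟩ := hE u w hd
    · exact ⟨h⁻¹, by simp, by simp⟩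
    · exact ⟨h⁻¹, by simp, by simp⟩
  refine ⟨T', adm_col c hK hA, ?_, ⟨{π a, π b}, Set.toFinite _, fun u => ?_, hE'⟩, ?_⟩
  · intro x y x' y' h1 h2
    obtain ⟨h, h3⟩ := hE x y h1
    obtain ⟨k, h4⟩ := hE x' y' h2
    refine ⟨k * h⁻¹, ?_⟩
    rcases h3 with ⟨rfl, rfl⟩ | ⟨rfl, rfl⟩ <;> rcases h4 with ⟨rfl, rfl⟩ | ⟨rfl, rfl⟩ <;>
      simp [mul_smul]
  · by_cases hu : u = π a
    · exact ⟨1, by simp [hu]⟩
    · obtain ⟨w, hw, -⟩ := IsSimp.geo u (π a) hu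
      obtain ⟨h, h1, -⟩ := hE' u w hw
      exact ⟨h, h1⟩
  · refine ((hSer G T').2 g).2 ⟨π a, fun e => ?_, ?_⟩
    · rw [← c.smul] at e
      exact (c.eq a (g • a)).1 e.symm a b ⟨hab, btw_left _ _, hbt⟩ hk0
    · rw [← c.smul, ← c.smul]
      exact c.btw _ _ _ hb

theorem rowA : StmtRK → StmtUp → StmtDown → StmtA := by
  intro hRK hUp hDown
  have key : ∀ (n : ℕ) (G : Type) [Group G] [IsFreeGroup G] (Q : Set G), cx Q = n → FinRk G →
      CI Q → (∀ g, g ∉ Q → ∃ T : GT G, Adm Q T ∧ ¬ Ell T.X g) → ∃ T : GT G, Hier Q T := by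
    intro n
    induction n using Nat.strong_induction_on with
    | _ n ih =>
      intro G _ _ Q hn hG hC hH
      by_cases hQ : ∀ g, g ∈ Q
      · exact ⟨pt G, hier_pt hQ hG.fg⟩
      · obtain ⟨g, hg⟩ := not_forall.1 hQ
        obtain ⟨T, hA, hT⟩ := hH g hg
        obtain ⟨T', hA', h1, h2, h3⟩ := hDown G Q T g hA hT
        refine hUp G Q T' hC hA' h2 fun v => ?_
        obtain ⟨h4, h5⟩ := hRK G Q T' hG hC hA' h1 (fun x => ⟨g, fun e => h3 ⟨x, e⟩⟩) v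
        refine ih _ (hn ▸ h5) (stabilizer G v) (tr Q (stabilizer G v)) rfl h4
          (fun k h hh => hC (k : G) (h : G) hh) fun h hh => ?_
        obtain ⟨S, hS, hS'⟩ := hH (h : G) hh
        exact ⟨res S _, adm_res hS _, hS'⟩
  exact fun G _ _ Q => key _ G Q rfl

end Pool.Agent.MP_3ce0a0_al.Q2T10
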