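import Pool.Agent.MP_3ce0a0_al.Q2T10.Spec

/-!
The free splitting obtained by collapsing the edges with non-trivial group.
-/

set_option autoImplicit false

namespace Pool.Agent.MP_3ce0a0_al.Q2T10

open Q2T1

namespace RB

variable {G : Type} [Group G]

theorem fix_btw (T : GT G) {g : G} {x y z : T.X} (hx : g • x = x) (hy : g • y = y)
    (h : Btw x z y) : g • z = z := by
  have h1 := BAct.btw g _ _ _ h
  rw [hx, hy] at h1
  refine h1.eq_of_dist h ?_
  rw [← dist_smul g x z, hx]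

theorem fix_uniq {T : GT G} (hT : T.Triv) {g : G} (hg : g ≠ 1) {x y : T.X} (hx : g • x = x)
    (hy : g • y = y) : x = y := by
  by_contra hne
  obtain ⟨z, h1, h2⟩ := IsSimp.geo x y hne
  exact hg (hT x z h1 g hx (fix_btw T hx hy h2))

/-- The edges with trivial group. -/
def KK (T : GT G) (x y : T.X) : Prop := ∀ g : G, g • x = x → g • y = y → g = 1

theorem step {T S : GT G} {π : T.X → S.X} (h : IsCol T S (KK T) π) {x y : T.X} (hne : x ≠ y)
    (e : π x = π y) : ∃ z, dist x z = 1 ∧ Btw x z y ∧ π z = π y ∧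
      ∃ c : G, c ≠ 1 ∧ c • x = x ∧ c • z = z := by
  obtain ⟨z, h1, h2⟩ := IsSimp.geo x y hne
  have h3 := (h.eq x y).1 e x z ⟨h1, btw_left _ _, h2⟩
  have h4 := h.btw _ _ _ h2
  rw [e] at h4
  refine ⟨z, h1, h2, h4.eq_of_self, ?_⟩
  by_contra hn
  exact h3 fun g g1 g2 => by_contra fun g3 => hn ⟨g, g3, g1, g2⟩

theorem rel1 {Q : Set G} {T : GT G} (hT : Hier Q T) {a b : G} {x : T.X} (ha : a ≠ 1) (hb : b ≠ 1)
    (h1 : a • x = x) (h2 : b • x = x) : Rel1 Q a b := by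
  refine ⟨ha, hb, fun g hg => (hT.ell g).2 ⟨x, ?_⟩⟩
  refine (Subgroup.closure_le (MulAction.stabilizer G x)).2 ?_ hg
  rintro _ (rfl | rfl)
  · exact h1
  · exact h2

theorem rel {Q : Set G} {T S : GT G} (hT : Hier Q T) {π : T.X → S.X} (h : IsCol T S (KK T) π)
    {b : G} (hb : b ≠ 1) {y : T.X} (hy : b • y = y) (n : ℕ) : ∀ (x : T.X) (a : G),
      dist x y = n → π x = π y → a ≠ 1 → a • x = x → Rel Q a b := by
  induction n with
  | zero =>
    intro x a hd _ ha hx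
    rw [Nat.cast_zero, dist_eq_zero] at hd
    exact Relation.ReflTransGen.single (rel1 hT ha hb hx (hd ▸ hy))
  | succ n ih =>
    intro x a hd e ha hx
    have hne : x ≠ y := fun e' => by
      rw [e', dist_self] at hd
      exact Nat.cast_ne_zero.2 (Nat.succ_ne_zero n) hd.symm
    obtain ⟨z, h1, h2, h3, c, hc, c1, c2⟩ := step h hne e
    refine Relation.ReflTransGen.head (rel1 hT ha hc hx c1) (ih z c ?_ h3 hc c2)
    unfold Q2T1.Btw at h2
    rw [h1, hd] at h2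
    push_cast at h2
    linarith

end RB

open RB in
theorem rowB : StmtCol → StmtSer → StmtB := by
  intro hC hS G _ Q T hT
  obtain ⟨S, π, h⟩ := hC G T (KK T) (fun x y k g g1 g2 => k g g2 g1) fun g x y k a a1 a2 => by
    have e := k (g⁻¹ * a * g) (by rw [mul_smul, mul_smul, a1, inv_smul_smul])
      (by rw [mul_smul, mul_smul, a2, inv_smul_smul])
    rwa [mul_assoc, inv_mul_eq_one, eq_comm, mul_eq_right] at e
  have hf : ∀ (g : G) (x : T.X), g • x = x → g • π x = π x := fun g x e => by rw [← h.smul, e]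
  have ht : S.Triv := fun u w hd g g1 g2 => by
    obtain ⟨x, y, d, k, rfl, rfl⟩ := h.lift u w hd
    have k' : KK T (g • x) (g • y) := fun a a1 a2 => by
      have e := k (g⁻¹ * a * g) (by rw [mul_smul, mul_smul, a1, inv_smul_smul])
        (by rw [mul_smul, mul_smul, a2, inv_smul_smul])
      rwa [mul_assoc, inv_mul_eq_one, eq_comm, mul_eq_right] at e
    obtain ⟨e1, e2⟩ := h.uniq (g • x) (g • y) x y (by rw [dist_smul, d]) d k' k
      (by rw [h.smul, g1]) (by rw [h.smul, g2])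
    exact k g e1 e2
  refine ⟨S, ?_, ht, fun g hg => ?_, fun u g hg hu => ?_, fun a ha a1 b hb b1 u hu => ⟨?_, ?_⟩⟩
  · obtain ⟨A, hA, h1, h2⟩ := hT.cocpt
    refine ⟨π '' A, hA.image _, fun u => ?_, fun u w hd => ?_⟩
    · obtain ⟨x, rfl⟩ := h.surj u
      obtain ⟨g, hg⟩ := h1 x
      exact ⟨g, _, hg, h.smul g x⟩
    · obtain ⟨x, y, d, -, rfl, rfl⟩ := h.lift u w hd
      obtain ⟨g, g1, g2⟩ := h2 x y d
      exact ⟨g, ⟨_, g1, h.smul g x⟩, _, g2, h.smul g y⟩
  · obtain ⟨x, hx⟩ := (hT.ell g).1 hg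
    exact ⟨π x, hf g x hx⟩
  · obtain ⟨x, rfl⟩ := h.surj u
    by_cases e : g • x = x
    · exact ⟨g, (hT.ell g).2 ⟨x, e⟩, hg, hu⟩
    · obtain ⟨z, -, -, -, c, hc, c1, -⟩ := step h (Ne.symm e) (by rw [h.smul, hu])
      exact ⟨c, (hT.ell c).2 ⟨x, c1⟩, hc, hf c x c1⟩
  · intro hbu
    obtain ⟨x, hx⟩ := (hT.ell a).1 ha
    obtain ⟨y, hy⟩ := (hT.ell b).1 hb
    obtain ⟨n, hn⟩ := IsSimp.int x y
    exact rel hT h b1 hy n x a hn
      ((fix_uniq ht a1 (hf a x hx) hu).trans (fix_uniq ht b1 hbu (hf b y hy))) a1 hx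
  · intro hr
    clear hb b1
    induction hr with
    | refl => exact hu
    | @tail c d _ h1 ih =>
      obtain ⟨x, hx⟩ := (hS G T).1 (Subgroup.closure {c, d})
        ((Subgroup.fg_iff _).2 ⟨_, rfl, Set.toFinite _⟩) fun g hg => (hT.ell g).1 (h1.2.2 g hg)
      rw [← fix_uniq ht h1.1 (hf c x (hx c (Subgroup.subset_closure (by simp)))) ih]
      exact hf d x (hx d (Subgroup.subset_closure (by simp)))

end Pool.Agent.MP_3ce0a0_al.Q2T10
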