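import Pool.Agent.MP_3ce0a0_al.Q2T10.Spec

/-! Row Q: periodic elements and the trees of the Dehn twists. -/

set_option autoImplicit false

namespace Pool.Agent.MP_3ce0a0_al.Q2T10

open Q2T1 MulAction
open H79 (Out Inn)
open Q2T15 (mkOut)
open Q2T4A (MaxCyc)

namespace RQ

variable {G : Type} [Group G]

theorem mk_conj (g : G) : mkOut G (MulAut.conj g) = 1 :=
  (QuotientGroup.eq_one_iff _).2 ⟨g, rfl⟩

theorem mk_eq {α β : MulAut G} (h : mkOut G α = mkOut G β) : ∃ g, β = MulAut.conj g * α := by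
  have h1 : mkOut G (β * α⁻¹) = 1 := by rw [map_mul, map_inv, h, mul_inv_cancel]
  obtain ⟨g, hg⟩ := (QuotientGroup.eq_one_iff _).1 h1
  exact ⟨g, by rw [hg, inv_mul_cancel_right]⟩

theorem mk_surj (ψ : Out G) : ∃ β, mkOut G β = ψ := QuotientGroup.mk'_surjective _ ψ

theorem per_map {φ : Out G} {g : G} (h : Per φ g) (β : MulAut G) :
    Per (mkOut G β * φ * (mkOut G β)⁻¹) (β g) := by
  obtain ⟨N, hN, α, h1, h2⟩ := h
  refine ⟨N, hN, β * α * β⁻¹, by rw [map_mul, map_mul, map_inv, h1, conj_pow], ?_⟩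
  rw [MulAut.mul_apply, MulAut.mul_apply, MulAut.inv_apply_self, h2]

theorem ci (Φ : Set (Out G)) : CI (QS Φ) := fun g h hh φ hφ => by
  have := per_map (hh φ hφ) (MulAut.conj g)
  rwa [mk_conj, one_mul, inv_one, mul_one] at this

theorem nm_inv {Φ : Set (Out G)} {ψ : Out G} (h : Nm Φ ψ) : Nm Φ ψ⁻¹ := fun φ => by
  have e : ψ * (ψ⁻¹ * φ * ψ⁻¹⁻¹) * ψ⁻¹ = φ := by group
  rw [h (ψ⁻¹ * φ * ψ⁻¹⁻¹), e]

theorem pres_aux {Φ : Set (Out G)} {α : MulAut G} (h : Nm Φ (mkOut G α)) {g : G}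
    (hg : g ∈ QS Φ) : α g ∈ QS Φ := fun φ hφ => by
  have h1 := per_map (hg _ ((nm_inv h φ).1 hφ)) α
  have h2 : mkOut G α * ((mkOut G α)⁻¹ * φ * (mkOut G α)⁻¹⁻¹) * (mkOut G α)⁻¹ = φ := by group
  rwa [h2] at h1

theorem pres {Φ : Set (Out G)} {α : MulAut G} (h : Nm Φ (mkOut G α)) : Pres (QS Φ) α := by
  refine fun g => ⟨fun hg => ?_, pres_aux h⟩
  have := pres_aux (α := α⁻¹) (by rw [map_inv]; exact nm_inv h) hg
  rwa [MulAut.inv_apply_self] at this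

theorem fix_zpowers {α : MulAut G} {c g : G} (h : α c = c) (hg : g ∈ Subgroup.zpowers c) :
    α g = g := by
  obtain ⟨k, rfl⟩ := hg
  simp only [map_zpow, h]

theorem qs_zpowers {Φ : Set (Out G)} {c g : G} (h : c ∈ QS Φ) (hg : g ∈ Subgroup.zpowers c) :
    g ∈ QS Φ := fun φ hφ => by
  obtain ⟨N, hN, α, h1, h2⟩ := h φ hφ
  exact ⟨N, hN, α, h1, fix_zpowers h2 hg⟩

theorem conj_mul_pow {α : MulAut G} {g : G} (h : α g = g) (r : ℕ) :
    (MulAut.conj g * α) ^ r = MulAut.conj (g ^ r) * α ^ r := by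
  have h1 : Commute (MulAut.conj g) α := by
    ext x
    simp [h]
  rw [h1.mul_pow, map_pow]

theorem h3_fix {N : Subgroup G} {α β : MulAut G} (h : ∀ g, α g * g⁻¹ ∈ N)
    (k : ∀ g, β g * g⁻¹ ∈ N) (g : G) : (α * β) g * g⁻¹ ∈ N := by
  have := N.mul_mem (h (β g)) (k g)
  rwa [mul_assoc, inv_mul_cancel_left] at this

theorem h3_pow {N : Subgroup G} {α : MulAut G} (h : ∀ g, α g * g⁻¹ ∈ N) (k : ℕ) (g : G) :
    (α ^ k) g * g⁻¹ ∈ N := by
  induction k generalizing g with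
  | zero => simp
  | succ k ih => rw [pow_succ]; exact h3_fix ih h g

theorem h3_one (A : Set G) (F₀ : Subgroup G) : H3 A F₀ 1 :=
  ⟨1, one_pos, 1, by simp, fun g => by simp⟩

theorem h3_mul {A : Set G} {F₀ : Subgroup G} {ψ ψ' : Out G} (hc : Commute ψ ψ')
    (h : H3 A F₀ ψ) (k : H3 A F₀ ψ') : H3 A F₀ (ψ * ψ') := by
  obtain ⟨m, hm, α, h1, h2⟩ := h
  obtain ⟨m', hm', β, k1, k2⟩ := k
  refine ⟨m * m', Nat.mul_pos hm hm', α ^ m' * β ^ m, ?_, h3_fix (h3_pow h2 _) (h3_pow k2 _)⟩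
  rw [map_mul, map_pow, map_pow, h1, k1, hc.mul_pow, ← pow_mul, ← pow_mul, mul_comm m' m]

/-- Induction along the edges. -/
theorem edge_ind {X : Type} [MetricSpace X] [IsSimp X] (P : X → Prop) (v : X) (h0 : P v)
    (h1 : ∀ x y, dist x y = 1 → P x → P y) (x : X) : P x := by
  obtain ⟨n, hn⟩ := IsSimp.int x v
  induction n generalizing x with
  | zero => rw [dist_eq_zero.1 (hn.trans Nat.cast_zero)]; exact h0
  | succ n ih =>
    have hx : x ≠ v := fun e => by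
      rw [e, dist_self] at hn
      exact Nat.cast_add_one_ne_zero n (by rw [hn, Nat.cast_succ])
    obtain ⟨z, hz, hb⟩ := IsSimp.geo x v hx
    refine h1 z x (by rw [dist_comm, hz]) (ih z ?_)
    unfold Q2T1.Btw at hb
    rw [hz, hn, Nat.cast_succ] at hb
    linarith

variable [IsFreeGroup G]

theorem central {V : Subgroup G} (hV : Nab V) {g : G} (h : ∀ w ∈ V, g * w * g⁻¹ = w) : g = 1 := by
  obtain ⟨a, ha, b, hb, hab⟩ := hV
  exact Q2T4A.eq_one_of_comm hab (mul_inv_eq_iff_eq_mul.1 (h a ha))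
    (mul_inv_eq_iff_eq_mul.1 (h b hb))

theorem cz_unique {φ : Out G} {V : Subgroup G} (hV : Nab V) {α β : MulAut G} (h : Cz φ V α)
    (k : Cz φ V β) : α = β := by
  obtain ⟨g, hg⟩ := mk_eq (h.1.trans k.1.symm)
  have : g = 1 := central hV fun w hw => by
    have h1 := k.2 w hw
    rwa [hg, MulAut.mul_apply, h.2 w hw] at h1
  rw [hg, this, map_one, one_mul]

theorem adm {Φ : Set (Out G)} {φ : Out G} {T : GT G} (h : TwD Φ φ T) : Adm (QS Φ) T := by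
  refine ⟨h.ell, fun x y hd g h1 h2 => ?_, fun x y hd c hc h1 h2 g => ?_⟩
  · obtain ⟨c, -, k1, k2⟩ := h.edge x y hd
    exact qs_zpowers k1 ((k2 g).1 ⟨h1, h2⟩)
  · obtain ⟨r, k0, -, k2⟩ := h.edge x y hd
    have h3 := (k2 c).1 ⟨h1, h2⟩
    rw [k2 g]
    refine ⟨fun hg => k0.mem_of_comm h3 hc hg, fun hg => ?_⟩
    obtain ⟨i, rfl⟩ := hg
    obtain ⟨j, rfl⟩ := h3
    exact (Commute.refl r).zpow_zpow i j

theorem h3_tw {Φ : Set (Out G)} {φ : Out G} {T : GT G} (h : TwD Φ φ T) (A : Set G)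
    (F₀ : Subgroup G) (hA : QS Φ ⊆ A) [F₀.Normal] [F₀.FiniteIndex] : H3 A F₀ φ := by
  obtain ⟨N, hN, hl⟩ := h.lift
  choose al hal using hl
  obtain ⟨v⟩ := T.ne
  have hr : 0 < F₀.index := Nat.pos_of_ne_zero Subgroup.FiniteIndex.index_ne_zero
  have h1 : ∀ x : T.X, ∃ k ∈ Subgroup.closure (A ∩ F₀),
      al x ^ F₀.index = MulAut.conj k * al v ^ F₀.index := by
    refine edge_ind _ v ⟨1, one_mem _, by rw [map_one, one_mul]⟩ ?_
    rintro x y hd ⟨k, hk, e⟩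
    obtain ⟨c, k0, k1, k2⟩ := h.edge x y hd
    obtain ⟨g, hg⟩ := mk_eq ((hal x).1.trans (hal y).1.symm)
    have hc := (k2 c).2 (Subgroup.mem_zpowers c)
    have h2 : al x c = c := (hal x).2 c hc.1
    have h3 : g ∈ Subgroup.zpowers c := k0.2 g (by
      have h4 := (hal y).2 c hc.2
      rw [hg, MulAut.mul_apply, h2, MulAut.conj_apply] at h4
      exact mul_inv_eq_iff_eq_mul.1 h4)
    refine ⟨g ^ F₀.index * k, Subgroup.mul_mem _ (Subgroup.subset_closure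
      ⟨hA (qs_zpowers k1 (Subgroup.pow_mem _ h3 _)), F₀.pow_index_mem g⟩) hk, ?_⟩
    rw [hg, conj_mul_pow (fix_zpowers h2 h3), e, map_mul, mul_assoc]
  refine ⟨N * F₀.index, Nat.mul_pos hN hr, al v ^ F₀.index,
    by rw [map_pow, (hal v).1, pow_mul], fun g => ?_⟩
  obtain ⟨k, hk, e⟩ := h1 (g • v)
  have h2 : al (g • v) = MulAut.conj g * al v * (MulAut.conj g)⁻¹ := by
    refine cz_unique (h.nab _) (hal _) ⟨?_, fun w hw => ?_⟩
    · rw [map_mul, map_mul, map_inv, mk_conj, one_mul, inv_one, mul_one, (hal v).1]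
    · have h3 : g⁻¹ * w * g ∈ stabilizer G v := by
        rw [mem_stabilizer_iff] at hw ⊢
        rw [mul_smul, mul_smul, hw, inv_smul_smul]
      rw [MulAut.mul_apply, MulAut.mul_apply, MulAut.conj_inv_apply, (hal v).2 _ h3,
        MulAut.conj_apply]
      group
  rw [h2, conj_pow] at e
  have h3 : k⁻¹ * (g * ((al v ^ F₀.index) g)⁻¹) = 1 := by
    refine central (h.nab v) fun w _ => ?_
    obtain ⟨u, rfl⟩ := (al v ^ F₀.index).surjective w
    have h4 := congrArg (fun β : MulAut G => β u) e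
    simp only [MulAut.mul_apply, MulAut.conj_inv_apply, MulAut.conj_apply, map_mul, map_inv] at h4
    calc _ = k⁻¹ * ((g * (al v ^ F₀.index) g * g⁻¹)⁻¹ * (g * (al v ^ F₀.index) u * g⁻¹) *
          (g * (al v ^ F₀.index) g * g⁻¹)) * k := by group
      _ = _ := by rw [h4]; group
  have h5 : (al v ^ F₀.index) g * g⁻¹ = k⁻¹ := by
    rw [inv_mul_eq_one] at h3
    rw [h3]
    group
  rw [h5]
  exact Subgroup.inv_mem _ hk

end RQ

theorem rowQ : StmtQ := by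
  intro G _ _ Φ
  refine ⟨RQ.ci Φ, fun α h => RQ.pres h, fun φ _ T h => ⟨RQ.adm h, ?_, fun A F₀ hA h1 h2 =>
    RQ.h3_tw h A F₀ hA⟩, fun A F₀ => ⟨RQ.h3_one A F₀, fun ψ ψ' => RQ.h3_mul⟩⟩
  rintro g ⟨x, hx⟩
  obtain ⟨N, hN, hl⟩ := h.lift
  obtain ⟨α, h1, h2⟩ := hl x
  exact ⟨N, hN, α, h1, h2 g hx⟩

end Pool.Agent.MP_3ce0a0_al.Q2T10
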