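import Pool.Agent.MP_3ce0a0_al.Q2T10.Spec

/-! Row RK: the complexity of the vertex groups of a one-edge splitting. -/

set_option autoImplicit false

namespace Pool.Agent.MP_3ce0a0_al.Q2T10

open Q2T1 Q2T3 MulAction Module

namespace RRK

theorem cnt {U V W : Type} [AddCommGroup U] [AddCommGroup V] [AddCommGroup W] [Module ℚ U]
    [Module ℚ V] [Module ℚ W] [Module.Finite ℚ U] [Module.Finite ℚ W] (r : U →ₗ[ℚ] V)
    (δ : V →ₗ[ℚ] W) (h : LinearMap.ker δ ≤ LinearMap.range r) :
    Module.Finite ℚ V ∧ finrank ℚ V + finrank ℚ (LinearMap.ker r) ≤ finrank ℚ U + finrank ℚ W := by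
  have h1 : FiniteDimensional ℚ (LinearMap.ker δ) := Submodule.finiteDimensional_of_le h
  have h2 : Module.Finite ℚ V := ⟨Submodule.fg_of_fg_map_of_fg_inf_ker δ (IsNoetherian.noetherian _)
    (by rw [top_inf_eq]; exact (Submodule.fg_iff_finiteDimensional _).2 h1)⟩
  refine ⟨h2, ?_⟩
  have a := r.finrank_range_add_finrank_ker
  have b := δ.finrank_range_add_finrank_ker
  have c := Submodule.finrank_mono h
  have d := (LinearMap.range δ).finrank_le
  omega

theorem pos {U : Type} [AddCommGroup U] [Module ℚ U] [Module.Finite ℚ U] (S : Submodule ℚ U)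
    {x : U} (hx : x ∈ S) (h0 : x ≠ 0) : 1 ≤ finrank ℚ S :=
  finrank_pos_iff_exists_ne_zero.2 ⟨⟨x, hx⟩, fun e => h0 (congrArg Subtype.val e)⟩

variable {G : Type} [Group G] {T : GT G}

theorem cj {v x : T.X} {s h : G} (hs : s • v = x) (hh : h • x = x) :
    s⁻¹ * h * s ∈ stabilizer G v := by
  rw [mem_stabilizer_iff, mul_smul, mul_smul, hs, hh, ← hs, inv_smul_smul]

open Classical in
/-- The equivariant family of a homomorphism on a vertex group. -/
noncomputable def fam (v : T.X) (l : Hm (stabilizer G v)) (x : T.X) (h : G) : ℚ :=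
  if H : ∃ s : G, s • v = x ∧ h • x = x then
    l (Additive.ofMul ⟨_, cj H.choose_spec.1 H.choose_spec.2⟩) else 0

theorem fam_eq {v : T.X} (l : Hm (stabilizer G v)) {x : T.X} {s h : G} (hs : s • v = x)
    (hh : h • x = x) : fam v l x h = l (Additive.ofMul ⟨_, cj hs hh⟩) := by
  have H : ∃ s : G, s • v = x ∧ h • x = x := ⟨s, hs, hh⟩
  have ha : H.choose⁻¹ * s ∈ stabilizer G v := by
    rw [mem_stabilizer_iff, mul_smul, hs, inv_smul_eq_iff, H.choose_spec.1]
  rw [fam, dif_pos H, ← l.conj ⟨_, ha⟩ ⟨_, cj hs hh⟩]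
  refine congrArg (fun a => l (Additive.ofMul a)) (Subtype.ext ?_)
  simp only [Subgroup.coe_mul, Subgroup.coe_inv]
  group

theorem fam_zero {v : T.X} (l : Hm (stabilizer G v)) {x : T.X} (hx : ¬ ∃ s : G, s • v = x)
    (h : G) : fam v l x h = 0 :=
  dif_neg fun ⟨s, hs, _⟩ => hx ⟨s, hs⟩

theorem fam_self {v : T.X} (l : Hm (stabilizer G v)) (a : stabilizer G v) :
    fam v l v a = l (Additive.ofMul a) := by
  rw [fam_eq l (one_smul G v) a.2]
  exact congrArg (fun a => l (Additive.ofMul a)) (Subtype.ext (by simp))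

/-- Equivariant families of additive functions on the vertex groups. -/
structure Fam (T : GT G) (l : T.X → G → ℚ) : Prop where
  add : ∀ v g h, g • v = v → h • v = v → l v (g * h) = l v g + l v h
  eqv : ∀ v g h, h • v = v → l (g • v) (g * h * g⁻¹) = l v h

theorem fam_fam {v : T.X} (l : Hm (stabilizer G v)) : Fam T (fam v l) := by
  refine ⟨fun x g h hg hh => ?_, fun x g h hh => ?_⟩
  · by_cases hx : ∃ s : G, s • v = x
    · obtain ⟨s, hs⟩ := hx
      rw [fam_eq l hs hg, fam_eq l hs hh, fam_eq l hs (by rw [mul_smul, hh, hg]), ← l.mul]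
      refine congrArg (fun a => l (Additive.ofMul a)) (Subtype.ext ?_)
      simp only [Subgroup.coe_mul]
      group
    · simp only [fam_zero l hx, add_zero]
  · by_cases hx : ∃ s : G, s • v = x
    · obtain ⟨s, hs⟩ := hx
      rw [fam_eq l hs hh, fam_eq l (s := g * s) (by rw [mul_smul, hs])
        (by rw [mul_smul, inv_smul_smul, mul_smul, hh])]
      refine congrArg (fun a => l (Additive.ofMul a)) (Subtype.ext ?_)
      simp only
      group
    · rw [fam_zero l hx, fam_zero l]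
      rintro ⟨s, hs⟩
      exact hx ⟨g⁻¹ * s, by rw [mul_smul, hs, inv_smul_smul]⟩

theorem Fam.plus {l m : T.X → G → ℚ} (hl : Fam T l) (hm : Fam T m) :
    Fam T fun x h => l x h + m x h :=
  ⟨fun v g h hg hh => by rw [hl.add v g h hg hh, hm.add v g h hg hh]; ring,
    fun v g h hh => by rw [hl.eqv v g h hh, hm.eqv v g h hh]⟩

theorem extend (x1 : StmtX1) (one : T.One) {v w : T.X} (hvw : dist v w = 1) {l : T.X → G → ℚ}
    (hl : Fam T l) (hc : ∀ c : G, c • v = v → c • w = w → l v c = l w c) :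
    ∃ φ : Hm G, ∀ x h, h • x = x → φ (Additive.ofMul h) = l x h := by
  obtain ⟨φ, h1, h2⟩ := x1 G T l hl.add hl.eqv fun x y h hxy hx hy => by
    have k : ∀ (g : G) (z : T.X), h • z = z → (g * h * g⁻¹) • g • z = g • z := fun g z hz => by
      rw [mul_smul, inv_smul_smul, mul_smul, hz]
    obtain ⟨g, ⟨e1, e2⟩ | ⟨e1, e2⟩⟩ := one x y v w hxy hvw
    · rw [← hl.eqv x g h hx, ← hl.eqv y g h hy, e1, e2]
      exact hc _ (e1 ▸ k g x hx) (e2 ▸ k g y hy)
    · rw [← hl.eqv x g h hx, ← hl.eqv y g h hy, e1, e2]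
      exact (hc _ (e2 ▸ k g y hy) (e1 ▸ k g x hx)).symm
  exact ⟨mkHm φ h1, h2⟩

theorem fam_Q {Q : Set G} (ci : CI Q) {v : T.X} {l : Hm (stabilizer G v)}
    (hl : l ∈ InvQ (tr Q (stabilizer G v))) (x : T.X) {g : G} (hg : g ∈ Q) (hx : g • x = x) :
    fam v l x g = 0 := by
  by_cases H : ∃ s : G, s • v = x
  · obtain ⟨s, hs⟩ := H
    rw [fam_eq l hs hx]
    refine hl _ ?_
    have := ci s⁻¹ g hg
    rwa [inv_inv] at this
  · exact fam_zero l H g

/-- Restriction of homomorphisms that kill `Q`. -/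
def resQ (Q : Set G) (A : Subgroup G) : InvQ Q →ₗ[ℚ] InvQ (tr Q A) :=
  (Hm.comap A.subtype).restrict fun _ h g hg => h g hg

theorem inv_le (x1 : StmtX1) {Q : Set G} (hG : FinRk G) (ci : CI Q) (ad : Adm Q T) (one : T.One)
    {v w : T.X} (hvw : dist v w = 1) :
    finrank ℚ (InvQ (tr Q (stabilizer G v))) + finrank ℚ (LinearMap.ker (resQ Q (stabilizer G v)))
      = finrank ℚ (InvQ Q) := by
  have : Module.Finite ℚ (Hm G) := hG
  have hs : LinearMap.range (resQ Q (stabilizer G v)) = ⊤ := by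
    refine LinearMap.range_eq_top.2 fun l => ?_
    obtain ⟨φ, hφ⟩ := extend x1 one hvw (fam_fam l.1) fun c h1 h2 => by
      have hc := ad.edge v w hvw c h1 h2
      rw [fam_Q ci l.2 v hc h1, fam_Q ci l.2 w hc h2]
    refine ⟨⟨φ, fun g hg => ?_⟩, Subtype.ext (Hm.ext' fun a => ?_)⟩
    · obtain ⟨x, hx⟩ := ad.ell g hg
      rw [hφ x g hx, fam_Q ci l.2 x hg hx]
    · exact (hφ v a a.2).trans (fam_self l.1 a)
  rw [← (resQ Q (stabilizer G v)).finrank_range_add_finrank_ker, hs, finrank_top]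

theorem moves (one : T.One) (nf : ∀ x : T.X, ∃ g : G, g • x ≠ x) {v w : T.X} (hvw : dist v w = 1)
    (hw : ¬ ∃ s : G, s • v = w) : ∃ b : G, b • w = w ∧ b • v ≠ v := by
  by_contra hb
  have hb' : ∀ b : G, b • w = w → b • v = v := fun b h => by_contra fun k => hb ⟨b, h, k⟩
  have u : ∀ x, dist w x = 1 → x = v := fun x hx => by
    obtain ⟨g, ⟨e1, e2⟩ | ⟨-, e2⟩⟩ := one w v w x (dist_comm v w ▸ hvw) hx
    · rw [← e2, hb' g e1]
    · exact (hw ⟨g, e2⟩).elim
  obtain ⟨g, hg⟩ := nf v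
  obtain ⟨z, hz, h1⟩ := IsSimp.geo v (g • v) hg.symm
  obtain ⟨k, ⟨e1, e2⟩ | ⟨e1, -⟩⟩ := one v z v w hz hvw
  · have hne : z ≠ g • v := fun e => hw ⟨k * g, by rw [mul_smul, ← e, e2]⟩
    obtain ⟨y, hy, h2⟩ := IsSimp.geo z (g • v) hne
    have e3 : k • y = k • v := by
      rw [e1]
      exact u _ (by rw [← e2, dist_smul, hy])
    rw [smul_left_cancel k e3] at h2 hy
    unfold Q2T1.Btw at h1 h2
    linarith
  · exact hw ⟨k, e1⟩

end RRK

open RRK in
theorem rowRK : StmtX1 → StmtX4 → StmtRK := by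
  intro x1 x4 G _ _ Q T hG ci ad one nf v
  have : Module.Finite ℚ (Hm G) := hG
  obtain ⟨w, hvw, -⟩ := IsSimp.geo v _ (nf v).choose_spec.symm
  obtain ⟨hC, hC1⟩ := rk_comm (H := (stabilizer G v ⊓ stabilizer G w : Subgroup G)) fun a b => by
    by_cases hb : (b : G) = 1
    · exact Subtype.ext (by simp [hb])
    · exact Subtype.ext ((ad.cen v w hvw b hb b.2.1 b.2.2 a).2 ⟨a.2.1, a.2.2⟩).eq
  have : Module.Finite ℚ (Hm (stabilizer G v ⊓ stabilizer G w : Subgroup G)) := hC
  have hI := inv_le x1 hG ci ad one hvw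
  by_cases hw : ∃ s : G, s • v = w
  · obtain ⟨t, ht⟩ := hw
    let κ : (stabilizer G v ⊓ stabilizer G w : Subgroup G) →* stabilizer G v :=
      { toFun := fun c => ⟨_, cj ht c.2.2⟩
        map_one' := Subtype.ext (by simp)
        map_mul' := fun a b => Subtype.ext (by simp only [Subgroup.coe_mul]; group) }
    obtain ⟨hA, hr⟩ := cnt (Hm.comap (stabilizer G v).subtype)
      (Hm.comap (Subgroup.inclusion inf_le_left) - Hm.comap κ) fun l hl => by
        obtain ⟨φ, hφ⟩ := extend x1 one hvw (fam_fam l) fun c h1 h2 => by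
          have := DFunLike.congr_fun (sub_eq_zero.1 (LinearMap.mem_ker.1 hl))
            (Additive.ofMul (⟨c, h1, h2⟩ : (stabilizer G v ⊓ stabilizer G w : Subgroup G)))
          rw [fam_eq l ht h2]
          exact (fam_self l ⟨c, h1⟩).trans this
        exact ⟨φ, Hm.ext' fun a => (hφ v a a.2).trans (fam_self l a)⟩
    obtain ⟨χ, h1, h2, h3⟩ := x4 G T v t (ht.symm ▸ hvw)
    have h0 : mkHm χ h1 ≠ 0 := fun e => h2 (DFunLike.congr_fun e (Additive.ofMul t))
    have hk : Hm.comap (stabilizer G v).subtype (mkHm χ h1) = 0 :=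
      Hm.ext' fun a => h3 a v a.2
    have hq : mkHm χ h1 ∈ InvQ Q := fun g hg => (ad.ell g hg).elim fun x hx => h3 g x hx
    have p1 := pos _ (LinearMap.mem_ker.2 hk) h0
    have p2 := pos (LinearMap.ker (resQ Q (stabilizer G v))) (x := ⟨_, hq⟩)
      (LinearMap.mem_ker.2 (Subtype.ext hk)) fun e => h0 (congrArg Subtype.val e)
    refine ⟨hA, ?_⟩
    unfold cx
    unfold rk at hC1 ⊢
    omega
  · have hv : ¬ ∃ s : G, s • w = v := fun ⟨s, hs⟩ => hw ⟨s⁻¹, by rw [← hs, inv_smul_smul]⟩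
    obtain ⟨hAB, hr⟩ := cnt
      ((Hm.comap (stabilizer G v).subtype).prod (Hm.comap (stabilizer G w).subtype))
      ((Hm.comap (Subgroup.inclusion (inf_le_left (b := stabilizer G w)))).coprod
        (-Hm.comap (Subgroup.inclusion (inf_le_right (a := stabilizer G v))))) fun l hl => by
        have e1 : ∀ a : stabilizer G v, fam v l.1 v a + fam w l.2 v a = l.1 (Additive.ofMul a) :=
          fun a => by rw [fam_self, fam_zero _ hv, add_zero]
        have e2 : ∀ a : stabilizer G w, fam v l.1 w a + fam w l.2 w a = l.2 (Additive.ofMul a) :=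
          fun a => by rw [fam_self, fam_zero _ hw, zero_add]
        obtain ⟨φ, hφ⟩ := extend x1 one hvw ((fam_fam l.1).plus (fam_fam l.2)) fun c h1 h2 => by
          have := DFunLike.congr_fun (add_neg_eq_zero.1 (LinearMap.mem_ker.1 hl))
            (Additive.ofMul (⟨c, h1, h2⟩ : (stabilizer G v ⊓ stabilizer G w : Subgroup G)))
          exact (e1 ⟨c, h1⟩).trans (this.trans (e2 ⟨c, h2⟩).symm)
        exact ⟨φ, Prod.ext (Hm.ext' fun a => (hφ v a a.2).trans (e1 a))
          (Hm.ext' fun a => (hφ w a a.2).trans (e2 a))⟩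
    have hA : FinRk (stabilizer G v) :=
      Module.Finite.of_surjective (LinearMap.fst ℚ _ (Hm (stabilizer G w))) Prod.fst_surjective
    have hB : FinRk (stabilizer G w) :=
      Module.Finite.of_surjective (LinearMap.snd ℚ (Hm (stabilizer G v)) _) Prod.snd_surjective
    have : Module.Finite ℚ (Hm (stabilizer G v)) := hA
    have : Module.Finite ℚ (Hm (stabilizer G w)) := hB
    rw [finrank_prod] at hr
    obtain ⟨b, hb, hb'⟩ := moves one nf hvw hw
    have hlt : rk (stabilizer G v ⊓ stabilizer G w : Subgroup G) < rk (stabilizer G w) := by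
      by_cases h : ∀ c : (stabilizer G v ⊓ stabilizer G w : Subgroup G), c = 1
      · have : Nontrivial (stabilizer G w) :=
          ⟨⟨b, hb⟩, 1, fun e => hb' (by rw [show b = 1 from congrArg Subtype.val e, one_smul])⟩
        rw [hC.eq_zero.2 h]
        exact hB.pos
      · obtain ⟨c, hc⟩ := not_forall.1 h
        have := hB.two_le (a := ⟨b, hb⟩) (b := ⟨c, c.2.2⟩) fun e =>
          hb' ((ad.cen v w hvw c (fun k => hc (Subtype.ext k)) c.2.1 c.2.2 b).1
            (congrArg Subtype.val e)).1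
        omega
    refine ⟨hA, ?_⟩
    unfold cx
    unfold rk at hlt ⊢
    omega

end Pool.Agent.MP_3ce0a0_al.Q2T10
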