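import Pool.Agent.MP_3ce0a0_al.Q2T10.Spec

/-! Row Up: one step of the hierarchy, the blow-up. -/

set_option autoImplicit false

namespace Pool.Agent.MP_3ce0a0_al.Q2T10

open Q2T1 MulAction

namespace RUp

variable {G : Type} [Group G]

theorem fg_map {H : Type} [Group H] {K : Subgroup G} (h : K.FG) (φ : G →* H) : (K.map φ).FG := by
  obtain ⟨S, h1, h2⟩ := (Subgroup.fg_iff K).1 h
  exact (Subgroup.fg_iff _).2 ⟨φ '' S, by rw [← h1, MonoidHom.map_closure], h2.image _⟩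

theorem conj_fix {X : Type} [MulAction G X] (k g : G) (x : X) :
    (k * g * k⁻¹) • k • x = k • x ↔ g • x = x := by
  rw [mul_smul, mul_smul, inv_smul_smul, smul_left_cancel_iff]

theorem conj_comm (k g c : G) : Commute (k * g * k⁻¹) (k * c * k⁻¹) ↔ Commute g c := by
  refine ⟨fun h => ?_, fun h => h.map (MulAut.conj k)⟩
  have h2 := h.map (MulAut.conj k).symm
  rwa [← MulAut.conj_apply, ← MulAut.conj_apply, MulEquiv.symm_apply_apply,
    MulEquiv.symm_apply_apply] at h2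

/-- The edge groups have fixed points in the trees of the vertex groups. -/
theorem edge_fix [IsFreeGroup G] {Q : Set G} {T : GT G} (hT : Adm Q T) (v w : T.X)
    (hd : dist v w = 1) (Y : GT (stabilizer G v)) (hY : Hier (tr Q (stabilizer G v)) Y) :
    ∃ y : Y.X, ∀ h : stabilizer G v, (h : G) • w = w → h • y = y := by
  obtain ⟨c, hc⟩ := Q2T4A.cyclic_of_comm (stabilizer G v ⊓ stabilizer G w) fun a ha b hb => by
    by_cases h : b = 1
    · rw [h]
      exact Commute.one_right a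
    · exact (hT.cen v w hd b h hb.1 hb.2 a).2 ⟨ha.1, ha.2⟩
  have h1 : c ∈ stabilizer G v ⊓ stabilizer G w := hc ▸ Subgroup.mem_zpowers c
  obtain ⟨y, hy⟩ := (hY.ell ⟨c, h1.1⟩).1 (hT.edge v w hd c h1.1 h1.2)
  refine ⟨y, fun h hw => ?_⟩
  have h2 : (h : G) ∈ Subgroup.zpowers c := hc ▸ (⟨h.2, hw⟩ : (h : G) ∈ _ ⊓ stabilizer G w)
  obtain ⟨n, hn⟩ := h2
  have h3 : h = (⟨c, h1.1⟩ : stabilizer G v) ^ n := Subtype.ext hn.symm
  rw [h3]
  exact zpow_mem (S := Subgroup (stabilizer G v)) (K := stabilizer _ y) hy n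

/-- An element that commutes with a non-trivial element fixing a vertex fixes the vertex. -/
theorem fix_of_comm {T : GT G} (hT : T.EdgeC) {v : T.X} {c g : G} (hc : c ≠ 1) (hv : c • v = v)
    (h : Commute g c) : g • v = v := by
  by_contra hne
  obtain ⟨z, h1, h2⟩ := IsSimp.geo v (g • v) fun e => hne e.symm
  have h3 : c • g • v = g • v := by rw [smul_smul, ← h.eq, mul_smul, hv]
  have h4 := BAct.btw c _ _ _ h2
  rw [hv, h3] at h4
  have h5 : c • z = z := h4.eq_of_dist h2 (by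
    conv_lhs => rw [← hv]
    rw [dist_smul])
  exact hne ((hT v z h1 c hc hv h5 g).1 h).1

variable {T Z : GT G} {Y : ∀ v : T.X, GT (stabilizer G v)} {π : Z.X → T.X} {R : Set T.X}
  {j : ∀ v, (Y v).X → Z.X}

theorem norm (B : IsBU T Y Z π R j) (z : Z.X) : ∃ (k : G) (v : T.X) (y : (Y v).X),
    v ∈ R ∧ k • z = j v y := by
  obtain ⟨k, hk⟩ := B.rep (π z)
  obtain ⟨y, hy⟩ := (B.fib _ hk (k • z)).1 (B.smul k z)
  exact ⟨k, _, y, hk, hy.symm⟩

theorem π_j (B : IsBU T Y Z π R j) {v : T.X} (hv : v ∈ R) (y : (Y v).X) : π (j v y) = v :=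
  (B.fib v hv _).2 ⟨y, rfl⟩

theorem norm2 (B : IsBU T Y Z π R j) (z z' : Z.X) (h : π z = π z') (hd : dist z z' = 1) :
    ∃ (k : G) (v : T.X) (y y' : (Y v).X), v ∈ R ∧ k • z = j v y ∧ k • z' = j v y' ∧
      dist y y' = 1 := by
  obtain ⟨k, v, y, hv, hy⟩ := norm B z
  obtain ⟨y', hy'⟩ := (B.fib v hv (k • z')).1 (by rw [B.smul, ← h, ← B.smul, hy, π_j B hv])
  exact ⟨k, v, y, y', hv, hy, hy'.symm, by rw [← B.iso v hv, ← hy, hy', dist_smul, hd]⟩

theorem fix_base (B : IsBU T Y Z π R j) {v : T.X} (hv : v ∈ R) {y : (Y v).X} {g : G}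
    (h : g • j v y = j v y) : g ∈ stabilizer G v := by
  have h1 := B.smul g (j v y)
  rw [h, π_j B hv] at h1
  exact h1.symm

theorem fix_iff (B : IsBU T Y Z π R j) {v : T.X} (hv : v ∈ R) (y : (Y v).X)
    (h : stabilizer G v) : (h : G) • j v y = j v y ↔ h • y = y := by
  rw [← B.j_smul v hv, ← dist_eq_zero, B.iso v hv, dist_eq_zero]

theorem ell {Q : Set G} (hQ : CI Q) (hT : Adm Q T) (B : IsBU T Y Z π R j)
    (hY : ∀ v, Hier (tr Q (stabilizer G v)) (Y v)) (g : G) : g ∈ Q ↔ Ell Z.X g := by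
  constructor
  · intro hg
    obtain ⟨x, hx⟩ := hT.ell g hg
    obtain ⟨k, hk⟩ := B.rep x
    obtain ⟨y, hy⟩ := ((hY (k • x)).ell ⟨k * g * k⁻¹, (conj_fix k g x).2 hx⟩).1 (hQ k g hg)
    refine ⟨k⁻¹ • j _ y, (conj_fix k g _).1 ?_⟩
    rw [smul_inv_smul]
    exact (fix_iff B hk y _).2 hy
  · rintro ⟨z, hz⟩
    obtain ⟨k, v, y, hv, hy⟩ := norm B z
    have h1 := (conj_fix k g z).2 hz
    rw [hy] at h1
    have h2 : k * g * k⁻¹ ∈ Q :=
      ((hY v).ell ⟨_, fix_base B hv h1⟩).2 ⟨y, (fix_iff B hv y _).1 h1⟩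
    have h3 := hQ k⁻¹ _ h2
    rwa [show k⁻¹ * (k * g * k⁻¹) * k⁻¹⁻¹ = g by group] at h3

theorem fg (B : IsBU T Y Z π R j) (hY : ∀ v y, (stabilizer (stabilizer G v) (y : (Y v).X)).FG)
    (z : Z.X) : (stabilizer G z).FG := by
  obtain ⟨k, v, y, hv, hy⟩ := norm B z
  have h1 : stabilizer G (j v y) =
      (stabilizer (stabilizer G v) y).map (stabilizer G v).subtype := by
    ext g
    constructor
    · intro h
      exact ⟨⟨g, fix_base B hv h⟩, (fix_iff B hv y _).1 h, rfl⟩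
    · rintro ⟨h, h2, rfl⟩
      exact (fix_iff B hv y h).2 h2
  rw [eq_inv_smul_iff.2 hy, stabilizer_smul_eq_stabilizer_map_conj, h1]
  exact fg_map (fg_map (hY v y) _) _

theorem cen (hT : T.EdgeC) (B : IsBU T Y Z π R j) (hY : ∀ v, (Y v).EdgeC) : Z.EdgeC := by
  intro x y hd c hc hx hy g
  by_cases h : π x = π y
  · obtain ⟨k, v, a, b, hv, ha, hb, hab⟩ := norm2 B x y h hd
    have h1 := (conj_fix k c x).2 hx
    have h2 := (conj_fix k c y).2 hy
    rw [← conj_comm k, ← conj_fix k g x, ← conj_fix k g y, ha, hb]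
    rw [ha] at h1
    rw [hb] at h2
    have h3 : k * c * k⁻¹ ≠ 1 := fun e => hc (by rwa [conj_eq_one_iff] at e)
    have h4 := fix_base B hv h1
    have h5 := hY v a b hab ⟨_, h4⟩ (fun e => h3 (congrArg Subtype.val e))
      ((fix_iff B hv a _).1 h1) ((fix_iff B hv b _).1 h2)
    constructor
    · intro h6
      have h7 : k * g * k⁻¹ ∈ stabilizer G v := fix_of_comm hT h3 h4 h6
      have h8 := (h5 ⟨_, h7⟩).1 (Subtype.ext h6.eq)
      exact ⟨(fix_iff B hv a _).2 h8.1, (fix_iff B hv b _).2 h8.2⟩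
    · rintro ⟨h6, h7⟩
      have h8 := (h5 ⟨_, fix_base B hv h6⟩).2
        ⟨(fix_iff B hv a _).1 h6, (fix_iff B hv b _).1 h7⟩
      exact congrArg Subtype.val h8.eq
  · rw [hT (π x) (π y) ((B.edge x y hd).resolve_left h) c hc (by rw [← B.smul, hx])
      (by rw [← B.smul, hy]) g]
    constructor
    · rintro ⟨h1, h2⟩
      have h3 := B.uniq x y (g • x) (g • y) hd (by rw [dist_smul, hd]) h
        (by rw [B.smul, h1]) (by rw [B.smul, h2])
      exact ⟨h3.1.symm, h3.2.symm⟩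
    · rintro ⟨h1, h2⟩
      exact ⟨by rw [← B.smul, h1], by rw [← B.smul, h2]⟩

theorem cocpt (hT : T.Cocpt) (B : IsBU T Y Z π R j) (hY : ∀ v, (Y v).Cocpt) : Z.Cocpt := by
  obtain ⟨A, hA, a1, a2⟩ := hT
  choose C hC c1 c2 using hY
  choose u hu using a1
  have hR : R.Finite := Set.Finite.of_injOn (f := fun v => u v • v) (fun v _ => hu v)
    (fun v hv w hw e => B.inj v hv w hw ((u w)⁻¹ * u v) (by
      have e' : u v • v = u w • w := e
      rw [mul_smul, e', inv_smul_smul])) hA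
  have hE : {p : Z.X × Z.X | dist p.1 p.2 = 1 ∧ π p.1 ≠ π p.2 ∧ π p.1 ∈ A ∧ π p.2 ∈ A}.Finite :=
    Set.Finite.of_injOn (f := fun p => (π p.1, π p.2)) (fun p hp => Set.mk_mem_prod hp.2.2.1 hp.2.2.2)
      (fun p hp q hq e => Prod.ext_iff.2 (B.uniq p.1 p.2 q.1 q.2 hp.1 hq.1 hp.2.1
        (congrArg Prod.fst e) (congrArg Prod.snd e))) (hA.prod hA)
  have key : ∀ v ∈ R, ∀ (h : stabilizer G v) y, h • y ∈ C v →
      (h : G) • j v y ∈ ⋃ v ∈ R, j v '' C v := fun v hv h y hy =>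
    Set.mem_biUnion hv ⟨h • y, hy, B.j_smul v hv h y⟩
  refine ⟨_, (hR.biUnion fun v _ => (hC v).image (j v)).union
    ((hE.image Prod.fst).union (hE.image Prod.snd)), fun z => ?_, fun x y hd => ?_⟩
  · obtain ⟨k, v, y, hv, hy⟩ := norm B z
    obtain ⟨h, hh⟩ := c1 v y
    exact ⟨h * k, Or.inl (by rw [mul_smul, hy]; exact key v hv h y hh)⟩
  · by_cases h : π x = π y
    · obtain ⟨k, v, a, b, hv, ha, hb, hab⟩ := norm2 B x y h hd
      obtain ⟨h, h1, h2⟩ := c2 v a b hab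
      exact ⟨h * k, Or.inl (by rw [mul_smul, ha]; exact key v hv h a h1),
        Or.inl (by rw [mul_smul, hb]; exact key v hv h b h2)⟩
    · obtain ⟨g, h1, h2⟩ := a2 _ _ ((B.edge x y hd).resolve_left h)
      have h3 : (g • x, g • y) ∈
          {p : Z.X × Z.X | dist p.1 p.2 = 1 ∧ π p.1 ≠ π p.2 ∧ π p.1 ∈ A ∧ π p.2 ∈ A} :=
        ⟨by rw [dist_smul, hd], by
          rw [B.smul, B.smul]
          exact fun e => h (smul_left_cancel g e), by rwa [B.smul], by rwa [B.smul]⟩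
      exact ⟨g, Or.inr (Or.inl ⟨_, h3, rfl⟩), Or.inr (Or.inr ⟨_, h3, rfl⟩)⟩

end RUp

theorem rowUp : StmtBU → StmtUp := by
  intro hB G _ _ Q T hQ hT hc hY
  choose Y hY using hY
  obtain ⟨Z, π, R, j, B⟩ := hB G T Y fun v w hd => RUp.edge_fix hT v w hd (Y v) (hY v)
  exact ⟨Z, RUp.cocpt hc B fun v => (hY v).cocpt, RUp.ell hQ hT B hY,
    RUp.fg B fun v => (hY v).fg, RUp.cen hT.cen B fun v => (hY v).cen⟩

end Pool.Agent.MP_3ce0a0_al.Q2T10
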