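import Pool.Agent.MP_3ce0a0_al.Q2T10.Spec

/-!
Row V1: the maximal non-abelian subgroups inside `Q` are the non-abelian vertex groups.
-/

set_option autoImplicit false

namespace Pool.Agent.MP_3ce0a0_al.Q2T10

open Q2T1 MulAction

namespace RV1

variable {G : Type} [Group G] {Q : Set G} {T : GT G}

theorem fix_btw {g : G} {x y z : T.X} (hx : g • x = x) (hy : g • y = y) (h : Btw x z y) :
    g • z = z := by
  have h1 : Btw x (g • z) y := by
    have := BAct.btw g x z y h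
    rwa [hx, hy] at this
  refine h1.eq_of_dist h ?_
  conv_lhs => rw [← hx, dist_smul]

theorem first_edge {x y : T.X} (h : x ≠ y) :
    ∃ z, dist x z = 1 ∧ ∀ g : G, g • x = x → g • y = y → g • z = z := by
  obtain ⟨z, h1, h2⟩ := IsSimp.geo x y h
  exact ⟨z, h1, fun g hx hy => fix_btw hx hy h2⟩

theorem ne_of_edge {x y : T.X} (h : dist x y = 1) : x ≠ y := by
  rintro rfl
  rw [dist_self] at h
  exact zero_ne_one h

theorem comm_of_fix (hc : T.EdgeC) {a b : G} {x y : T.X} (h : x ≠ y) (h1 : a • x = x)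
    (h2 : a • y = y) (h3 : b • x = x) (h4 : b • y = y) : Commute a b := by
  by_cases hb : b = 1
  · rw [hb]; exact Commute.one_right a
  obtain ⟨z, hz, k⟩ := first_edge h
  exact (hc x z hz b hb h3 (k b h3 h4) a).2 ⟨h1, k a h1 h2⟩

theorem eq_of_fix (hc : T.EdgeC) {a b : G} {x y : T.X} (h : ¬ Commute a b) (h1 : a • x = x)
    (h2 : a • y = y) (h3 : b • x = x) (h4 : b • y = y) : x = y :=
  by_contra fun k => h (comm_of_fix hc k h1 h2 h3 h4)

theorem fix3 (hS : StmtSer) (hT : Hier Q T) {H : Subgroup G} (hH : ∀ g ∈ H, g ∈ Q) {a b c : G}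
    (ha : a ∈ H) (hb : b ∈ H) (hc : c ∈ H) : ∃ x : T.X, a • x = x ∧ b • x = x ∧ c • x = x := by
  have hle : Subgroup.closure ({a, b, c} : Set G) ≤ H := by
    rw [Subgroup.closure_le]
    rintro g (rfl | rfl | rfl) <;> assumption
  obtain ⟨x, hx⟩ := (hS G T).1 (Subgroup.closure ({a, b, c} : Set G))
    ((Subgroup.fg_iff _).2 ⟨_, rfl, Set.toFinite _⟩) fun g hg => (hT.ell g).1 (hH g (hle hg))
  exact ⟨x, hx a (Subgroup.subset_closure (by simp)), hx b (Subgroup.subset_closure (by simp)),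
    hx c (Subgroup.subset_closure (by simp))⟩

theorem ex_fix (hS : StmtSer) (hT : Hier Q T) {H : Subgroup G} (hH : ∀ g ∈ H, g ∈ Q)
    (hN : Nab H) : ∃ x : T.X, H ≤ stabilizer G x := by
  obtain ⟨a, ha, b, hb, hab⟩ := hN
  obtain ⟨x, h1, h2, -⟩ := fix3 hS hT hH ha hb ha
  refine ⟨x, fun c hc => ?_⟩
  obtain ⟨y, h3, h4, h5⟩ := fix3 hS hT hH ha hb hc
  rw [eq_of_fix hT.cen hab h1 h3 h2 h4]
  exact h5

theorem nab_mono {H V : Subgroup G} (h : H ≤ V) (hN : Nab H) : Nab V := by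
  obtain ⟨a, ha, b, hb, hab⟩ := hN
  exact ⟨a, h ha, b, h hb, hab⟩

theorem stab_Q (hT : Hier Q T) (x : T.X) : ∀ g ∈ stabilizer G x, g ∈ Q :=
  fun g hg => (hT.ell g).2 ⟨x, hg⟩

theorem ex_stab (hS : StmtSer) (hT : Hier Q T) {V : Subgroup G} (h : MaxQ Q V) :
    ∃ x : T.X, V = stabilizer G x := by
  obtain ⟨x, hx⟩ := ex_fix hS hT h.1 h.2.1
  exact ⟨x, le_antisymm hx (h.2.2 _ hx (stab_Q hT x))⟩

theorem maxQ_stab (hS : StmtSer) (hT : Hier Q T) {x : T.X} (hN : Nab (stabilizer G x)) :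
    MaxQ Q (stabilizer G x) := by
  refine ⟨stab_Q hT x, hN, fun H h1 h2 => ?_⟩
  obtain ⟨y, hy⟩ := ex_fix hS hT h2 (nab_mono h1 hN)
  obtain ⟨a, ha, b, hb, hab⟩ := hN
  rw [eq_of_fix hT.cen hab ha (hy (h1 ha)) hb (hy (h1 hb))]
  exact hy

theorem img_stab (g : G) (x : T.X) :
    img (MulAut.conj g) (stabilizer G x) = stabilizer G (g • x) :=
  (stabilizer_smul_eq_stabilizer_map_conj g x).symm

theorem conj_fix {a : G} {x : T.X} (h : a • x = x) (g : G) : (g * a * g⁻¹) • g • x = g • x := by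
  rw [mul_smul, inv_smul_smul, mul_smul, h]

theorem conj_ne {a : G} (h : a ≠ 1) (g : G) : g * a * g⁻¹ ≠ 1 := fun e => h (by simpa using e)

/-- The translates of `p'` that start a translate of the edge from `p'` to `q'` which is fixed
together with the edge from `p` to `q`. -/
def Tr (T : GT G) (p q p' q' : T.X) : Set T.X :=
  {y | dist p q = 1 ∧ dist p' q' = 1 ∧ ∃ k : G, y = k • p' ∧ ∃ a : G, a ≠ 1 ∧ a • p = p ∧
    a • q = q ∧ a • k • p' = k • p' ∧ a • k • q' = k • q'}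

theorem tr_sub [IsFreeGroup G] (hc : T.EdgeC) (p q p' q' : T.X) :
    (Tr T p q p' q').Subsingleton := by
  rintro _ ⟨e, e', k, rfl, a, ha, h1, h2, h3, h4⟩ _ ⟨-, -, l, rfl, b, hb, k1, k2, k3, k4⟩
  have hab : Commute b a := comm_of_fix hc (ne_of_edge e) k1 k2 h1 h2
  have el : dist (l • p') (l • q') = 1 := by rwa [dist_smul]
  have s : ∀ u : T.X, (l * k⁻¹) • k • u = l • u := fun u => by rw [mul_smul, inv_smul_smul]
  have c1 := conj_fix h3 (l * k⁻¹)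
  have c2 := conj_fix h4 (l * k⁻¹)
  rw [s] at c1 c2
  have c3 : Commute (l * k⁻¹) b :=
    Q2T4A.comm_of_conj' hb ha hab (comm_of_fix hc (ne_of_edge el) k3 k4 c1 c2)
  have c4 := ((hc _ _ el b hb k3 k4 _).1 c3).1
  exact smul_left_cancel (l * k⁻¹) ((s p').trans c4.symm)

theorem fin_pairs [IsFreeGroup G] (hT : Hier Q T) : ∃ L : Set (T.X × T.X), L.Finite ∧
    ∀ x x' : T.X, x ≠ x' → ∀ a : G, a ≠ 1 → a • x = x → a • x' = x' →
      ∃ g : G, (g • x, g • x') ∈ L := by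
  obtain ⟨A, hA, -, h2⟩ := hT.cocpt
  refine ⟨A ×ˢ ⋃ p ∈ A, ⋃ q ∈ A, ⋃ p' ∈ A, ⋃ q' ∈ A, Tr T p q p' q',
    hA.prod (hA.biUnion fun p _ => hA.biUnion fun q _ => hA.biUnion fun p' _ =>
      hA.biUnion fun q' _ => (tr_sub hT.cen p q p' q').finite), fun x x' hne a ha hx hx' => ?_⟩
  obtain ⟨z, hz, k⟩ := first_edge hne
  obtain ⟨z', hz', k'⟩ := first_edge hne.symm
  obtain ⟨g, g1, g2⟩ := h2 x z hz
  obtain ⟨h, g3, g4⟩ := h2 x' z' hz'
  have s : ∀ u : T.X, (g * h⁻¹) • h • u = g • u := fun u => by rw [mul_smul, inv_smul_smul]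
  refine ⟨g, g1, ?_⟩
  simp only [Set.mem_iUnion]
  refine ⟨_, g1, _, g2, _, g3, _, g4, by rwa [dist_smul], by rwa [dist_smul], g * h⁻¹,
    (s x').symm, g * a * g⁻¹, conj_ne ha g, conj_fix hx g, conj_fix (k a hx hx') g, ?_, ?_⟩
  · rw [s]; exact conj_fix hx' g
  · rw [s]; exact conj_fix (k' a hx' hx) g

end RV1

open RV1 in
theorem rowV1 : StmtSer → StmtV1 := by
  intro hS G _ _ Q T hT
  refine ⟨fun V hV => ?_, fun V g hV h => ?_, fun H h1 h2 => ?_, fun V a b hV h1 h2 h3 => ?_,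
    fun V V' hV hV' hne a b h1 h2 h3 h4 => ?_, ?_, ?_⟩
  · obtain ⟨x, rfl⟩ := ex_stab hS hT hV
    exact hT.fg x
  · obtain ⟨x, rfl⟩ := ex_stab hS hT hV
    obtain ⟨a, ha, b, hb, hab⟩ := hV.2.1
    have k : ∀ c ∈ stabilizer G x, c • g⁻¹ • x = g⁻¹ • x := fun c hc => by
      have := conj_fix (mem_stabilizer_iff.1 (h c hc)) g⁻¹
      rwa [inv_inv, ← mul_assoc, ← mul_assoc, inv_mul_cancel, one_mul, inv_mul_cancel_right] at this
    have e := eq_of_fix hT.cen hab ha (k a ha) hb (k b hb)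
    exact mem_stabilizer_iff.2 (eq_inv_smul_iff.1 e)
  · obtain ⟨x, hx⟩ := ex_fix hS hT h1 h2
    exact ⟨_, maxQ_stab hS hT (nab_mono hx h2), hx⟩
  · obtain ⟨x, rfl⟩ := ex_stab hS hT hV
    have h4 : a • x = x := h1
    have h5 : a • b • x = b • x := by rw [← mul_smul, ← h3.eq, mul_smul, h4]
    by_contra hn
    obtain ⟨z, hz, k⟩ := first_edge (x := x) (y := b • x) fun e => hn e.symm
    exact hn ((hT.cen x z hz a h2 h4 (k a h4 h5) b).1 h3).1
  · obtain ⟨x, rfl⟩ := ex_stab hS hT hV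
    obtain ⟨x', rfl⟩ := ex_stab hS hT hV'
    exact comm_of_fix hT.cen (fun e => hne (by rw [e])) h1 h2 h3 h4
  · obtain ⟨A, hA, h1, -⟩ := hT.cocpt
    refine ⟨_, hA.image fun x => stabilizer G x, fun V hV => ?_⟩
    obtain ⟨x, rfl⟩ := ex_stab hS hT hV
    obtain ⟨g, hg⟩ := h1 x
    exact ⟨g, _, hg, (img_stab g x).symm⟩
  · obtain ⟨L, hL, h1⟩ := fin_pairs hT
    refine ⟨_, hL.image fun u => (stabilizer G u.1, stabilizer G u.2), fun V V' hV hV' hne => ?_⟩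
    obtain ⟨x, rfl⟩ := ex_stab hS hT hV
    obtain ⟨x', rfl⟩ := ex_stab hS hT hV'
    rintro ⟨a, ha, h2, h3⟩
    obtain ⟨g, hg⟩ := h1 x x' (fun e => hne (by rw [e])) a ha h2 h3
    exact ⟨g, _, hg, by rw [img_stab, img_stab]⟩

end Pool.Agent.MP_3ce0a0_al.Q2T10
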