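import Pool.Agent.MP_3ce0a0_al.Q2T10.Spec
import Pool.Agent.MP_3ce0a0_al.Q2T8.KPS

/-! The deep subgroup has finite index. -/

set_option autoImplicit false

namespace Pool.Agent.MP_3ce0a0_al.Q2T10

open H79 (Out Inn)
open Q2T15 (mkOut)

namespace RV2

variable {G : Type} [Group G]

/-- A finite colouring whose classes lie in cosets. -/
theorem fi_of_col {B L : Type} [Group B] [Finite L] (S : Subgroup B) (c : B → L)
    (h : ∀ a b, c a = c b → a⁻¹ * b ∈ S) : S.FiniteIndex := by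
  have : Finite (B ⧸ S) := Finite.of_injective (fun q : B ⧸ S => c q.out) fun q q' e => by
    rw [← q.out_eq', ← q'.out_eq']
    exact QuotientGroup.eq.2 (h _ _ e)
  exact Subgroup.finiteIndex_of_finite_quotient

theorem mk_conj (g : G) : mkOut G (MulAut.conj g) = 1 :=
  (QuotientGroup.eq_one_iff (N := Inn G) _).2 ⟨g, rfl⟩

theorem mem_img {α : MulAut G} {V : Subgroup G} {x : G} : x ∈ img α V ↔ α⁻¹ x ∈ V := by
  constructor
  · rintro ⟨y, hy, rfl⟩
    exact (α.symm_apply_apply y).symm ▸ hy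
  · intro h
    exact ⟨_, h, α.apply_symm_apply x⟩

theorem img_mul (α β : MulAut G) (V : Subgroup G) : img (α * β) V = img α (img β V) := by
  ext x
  rw [mem_img, mem_img, mem_img, mul_inv_rev, MulAut.mul_apply]

theorem maxQ_img {Q : Set G} {α : MulAut G} (hα : Pres Q α) {V : Subgroup G} (hV : MaxQ Q V) :
    MaxQ Q (img α V) := by
  obtain ⟨h1, ⟨a, ha, b, hb, hab⟩, h3⟩ := hV
  refine ⟨?_, ⟨α a, ⟨a, ha, rfl⟩, α b, ⟨b, hb, rfl⟩, fun c => hab (α.injective ?_)⟩, ?_⟩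
  · rintro _ ⟨y, hy, rfl⟩
    exact (hα y).2 (h1 y hy)
  · rw [map_mul, map_mul]
    exact c
  · intro H hle hH x hx
    refine mem_img.2 (h3 (H.comap α.toMonoidHom) (fun y hy => hle ⟨y, hy, rfl⟩)
      (fun y hy => (hα y).1 (hH _ hy)) ?_)
    exact Subgroup.mem_comap.2 ((α.apply_symm_apply x).symm ▸ hx)

variable {B : Type} [Group B]

/-- The elements with a lift that centralises `V`. -/
def Dv (τ : B →* Out G) (V : Subgroup G) : Subgroup B where
  carrier := {d | ∃ α, Cz (τ d) V α}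
  one_mem' := ⟨1, by rw [map_one, map_one], fun _ _ => rfl⟩
  mul_mem' := fun {a b} ha hb => by
    obtain ⟨α, h1, h2⟩ := ha
    obtain ⟨β, h3, h4⟩ := hb
    exact ⟨α * β, by rw [map_mul, map_mul, h1, h3],
      fun w hw => by rw [MulAut.mul_apply, h4 w hw, h2 w hw]⟩
  inv_mem' := fun {a} ha => by
    obtain ⟨α, h1, h2⟩ := ha
    exact ⟨α⁻¹, by rw [map_inv, map_inv, h1],
      fun w hw => by rw [MulAut.inv_apply, MulEquiv.symm_apply_eq, h2 w hw]⟩

/-- The lifts that preserve `V`. -/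
def Kv (τ : B →* Out G) (V : Subgroup G) : Subgroup (B × MulAut G) where
  carrier := {k | mkOut G k.2 = τ k.1 ∧ ∀ w, k.2 w ∈ V ↔ w ∈ V}
  one_mem' := ⟨by rw [Prod.snd_one, Prod.fst_one, map_one, map_one], fun _ => Iff.rfl⟩
  mul_mem' := fun {a b} ha hb =>
    ⟨by rw [Prod.snd_mul, Prod.fst_mul, map_mul, map_mul, ha.1, hb.1],
      fun w => (ha.2 (b.2 w)).trans (hb.2 w)⟩
  inv_mem' := fun {a} ha =>
    ⟨by rw [Prod.snd_inv, Prod.fst_inv, map_inv, map_inv, ha.1], fun w => by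
      have := ha.2 (a.2.symm w)
      rw [MulEquiv.apply_symm_apply] at this
      exact this.symm⟩

/-- The restriction to `V`. -/
def res (τ : B →* Out G) (V : Subgroup G) : Kv τ V →* MulAut V where
  toFun k :=
    { toFun := fun w => ⟨k.1.2 w, (k.2.2 w).2 w.2⟩
      invFun := fun w => ⟨(k⁻¹).1.2 w, ((k⁻¹).2.2 w).2 w.2⟩
      left_inv := fun w => Subtype.ext (k.1.2.symm_apply_apply w)
      right_inv := fun w => Subtype.ext (k.1.2.apply_symm_apply w)
      map_mul' := fun v w => Subtype.ext (map_mul k.1.2 v.1 w.1) }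
  map_one' := MulEquiv.ext fun _ => rfl
  map_mul' := fun _ _ => MulEquiv.ext fun _ => rfl

theorem dv_fi [IsFreeGroup G] {Q : Set G} (hF : VcFin Q) (τ : B →* Out G)
    (hP : ∀ b α, mkOut G α = τ b → Pres Q α) {V : Subgroup G} (hV : MaxQ Q V)
    (hN : ∀ b, ∃ N : ℕ, 0 < N ∧ ∃ α, Cz (τ b ^ N) V α) : (Dv τ V).FiniteIndex := by
  have : Group.FG V := (Group.fg_iff_subgroup_fg V).2 (hF.fg V hV)
  let p : Kv τ V →* B := (MonoidHom.fst B (MulAut G)).comp (Kv τ V).subtype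
  have h1 : p.range.FiniteIndex := by
    obtain ⟨L, hL, hl⟩ := hF.fin
    have key : ∀ b, ∃ α, mkOut G α = τ b ∧ img α V ∈ L := by
      intro b
      obtain ⟨α, hα⟩ := QuotientGroup.mk'_surjective (Inn G) (τ b)
      obtain ⟨g, hg⟩ := hl _ (maxQ_img (hP b α hα) hV)
      exact ⟨MulAut.conj g * α, by rw [map_mul, mk_conj, one_mul]; exact hα,
        by rw [img_mul]; exact hg⟩
    choose A hA hAL using key
    have := hL.to_subtype
    refine fi_of_col p.range (fun b => (⟨img (A b) V, hAL b⟩ : L)) fun a b e => ?_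
    have e' : img (A a) V = img (A b) V := congrArg Subtype.val e
    refine ⟨⟨(a⁻¹ * b, (A a)⁻¹ * A b), ?_, fun w => ?_⟩, rfl⟩
    · rw [map_mul, map_mul, map_inv, map_inv, hA, hA]
    · refine (mem_img (α := A a) (x := A b w)).symm.trans ?_
      rw [e', mem_img, MulAut.inv_apply, MulEquiv.symm_apply_apply]
  have h2 : ((Inn V).comap (res τ V)).FiniteIndex := by
    refine Q2T8.tf_hom (res τ V) fun k => ?_
    obtain ⟨N, hN0, β, hβ, hc⟩ := hN k.1.1
    have e : mkOut G ((k ^ N).1.2 * β⁻¹) = 1 := by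
      rw [map_mul, map_inv, hβ, (k ^ N).2.1, ← map_pow]
      exact mul_inv_cancel _
    obtain ⟨g, hg⟩ := (QuotientGroup.eq_one_iff (N := Inn G) _).1 e
    have hw : ∀ w ∈ V, (k ^ N).1.2 w = g * w * g⁻¹ := by
      intro w hw
      have := DFunLike.congr_fun hg (β w)
      rw [MulAut.mul_apply, MulAut.inv_apply, MulEquiv.symm_apply_apply, hc w hw] at this
      exact this.symm
    have hgV : g ∈ V := hF.norm V g hV fun w h => hw w h ▸ ((k ^ N).2.2 w).2 h
    exact ⟨N, hN0, ⟨g, hgV⟩, fun x => Subtype.ext (hw x.1 x.2)⟩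
  have h3 : (((Inn V).comap (res τ V)).map p).FiniteIndex := by
    refine ⟨?_⟩
    rw [Subgroup.index_map]
    have : ((Inn V).comap (res τ V) ⊔ p.ker).FiniteIndex :=
      Subgroup.finiteIndex_of_le le_sup_left
    exact mul_ne_zero this.1 h1.1
  refine Subgroup.finiteIndex_of_le (H := ((Inn V).comap (res τ V)).map p) ?_
  rintro _ ⟨k, ⟨v, hv⟩, rfl⟩
  refine ⟨(MulAut.conj (v : G))⁻¹ * k.1.2, ?_, fun w hw => ?_⟩
  · rw [map_mul, map_inv, mk_conj, inv_one, one_mul]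
    exact k.2.1
  · have : (v : G) * w * (v : G)⁻¹ = k.1.2 w :=
      congrArg Subtype.val (DFunLike.congr_fun hv (⟨w, hw⟩ : V))
    rw [MulAut.mul_apply, ← this, MulAut.inv_apply, MulEquiv.symm_apply_eq]
    rfl

end RV2

open RV2 in
theorem rowV2 : StmtV2 := by
  intro G _ _ Q _ hF B _ τ hP hN
  obtain ⟨L, hL, hl⟩ := hF.fin
  have : Finite {V // V ∈ L ∧ MaxQ Q V} := (hL.subset fun V h => h.1).to_subtype
  have h : (⨅ V : {V // V ∈ L ∧ MaxQ Q V}, Dv τ V.1).FiniteIndex :=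
    Subgroup.finiteIndex_iInf fun V => dv_fi hF τ hP V.2.2 fun b => hN b V.1 V.2.2
  refine Subgroup.finiteIndex_of_le (H := ⨅ V : {V // V ∈ L ∧ MaxQ Q V}, Dv τ V.1) ?_
  intro d hd V hV
  obtain ⟨g, hg⟩ := hl V hV
  have hm := maxQ_img (hP 1 (MulAut.conj g) (by rw [mk_conj, map_one])) hV
  obtain ⟨α, h1, h2⟩ := Subgroup.mem_iInf.1 hd ⟨_, hg, hm⟩
  refine ⟨(MulAut.conj g)⁻¹ * α * MulAut.conj g, ?_, fun w hw => ?_⟩
  · rw [map_mul, map_mul, map_inv, mk_conj, inv_one, one_mul, mul_one, h1]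
  · rw [MulAut.mul_apply, MulAut.mul_apply, h2 (MulAut.conj g w) ⟨w, hw, rfl⟩, MulAut.inv_apply,
      MulEquiv.symm_apply_apply]

end Pool.Agent.MP_3ce0a0_al.Q2T10
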