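import Pool.Agent.MP_3ce0a0_al.Q2T10.Spec
import Pool.Agent.MP_3ce0a0_al.Q2T15.Basic

/-! The twisting numbers. -/

set_option autoImplicit false

namespace Pool.Agent.MP_3ce0a0_al.Q2T10

open H79 (Out)
open Q2T15 (mkOut mkOut_eq_iff mkOut_conj)
open Q2T4A (MaxCyc)

namespace RV3

variable {G : Type} [Group G] {Q : Set G} {V V' : Subgroup G} {β α α' : MulAut G} {φ : Out G}
  {c g h : G}

theorem mem_img : g ∈ img β V ↔ β⁻¹ g ∈ V := by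
  refine ⟨?_, fun k => ⟨_, k, β.apply_inv_self G g⟩⟩
  rintro ⟨x, hx, rfl⟩
  rwa [MulEquiv.coe_toMonoidHom, MulAut.inv_apply_self]

theorem img_inv : img β (img β⁻¹ V) = V := by
  ext g
  rw [mem_img, mem_img, inv_inv, MulAut.apply_inv_self]

theorem img_inj (k : img β V = img β V') : V = V' :=
  Subgroup.map_injective (f := β.toMonoidHom) β.injective k

theorem pres_inv (k : Pres Q β) : Pres Q β⁻¹ := fun g => by
  rw [← k, MulAut.apply_inv_self]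

theorem pres_conj (k : CI Q) (g : G) : Pres Q (MulAut.conj g) := fun h =>
  ⟨fun e => by simpa [mul_assoc] using k g⁻¹ _ e, k g h⟩

theorem nab_img (k : Nab V) : Nab (img β V) := by
  obtain ⟨a, ha, b, hb, e⟩ := k
  exact ⟨β a, ⟨a, ha, rfl⟩, β b, ⟨b, hb, rfl⟩, fun e' => e (by simpa using e'.map β.symm)⟩

theorem maxQ_img (k : Pres Q β) (hV : MaxQ Q V) : MaxQ Q (img β V) := by
  refine ⟨fun g hg => (pres_inv k g).1 (hV.1 _ (mem_img.1 hg)), nab_img hV.2.1,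
    fun H h1 h2 g hg => mem_img.2 (hV.2.2 (img β⁻¹ H) (fun x hx => ?_) (fun x hx => ?_)
      ⟨g, hg, rfl⟩)⟩
  · exact mem_img.2 (h1 ⟨x, hx, rfl⟩)
  · exact (k x).1 (h2 _ (mem_img.1 hx))

theorem cz_img (k : Cz φ V α) : Cz (mkOut G β * φ * (mkOut G β)⁻¹) (img β V) (β * α * β⁻¹) := by
  refine ⟨by rw [map_mul, map_mul, map_inv, k.1], fun w hw => ?_⟩
  rw [MulAut.mul_apply, MulAut.mul_apply, k.2 _ (mem_img.1 hw), MulAut.apply_inv_self]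

theorem cz_mul {ψ : Out G} (k : Cz φ V α) (k' : Cz ψ V α') : Cz (φ * ψ) V (α * α') :=
  ⟨by rw [map_mul, k.1, k'.1], fun w hw => by rw [MulAut.mul_apply, k'.2 w hw, k.2 w hw]⟩

theorem mul_conj (β : MulAut G) (g : G) : β * MulAut.conj g = MulAut.conj (β g) * β := by
  ext x
  simp

theorem cz_comm (k : Cz φ V α) (k' : Cz φ V' (MulAut.conj g * α)) (h1 : c ∈ V) (h2 : c ∈ V') :
    Commute g c := by
  have := k'.2 c h2
  rw [MulAut.mul_apply, k.2 c h1, MulAut.conj_apply, mul_inv_eq_iff_eq_mul] at this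
  exact this

variable [IsFreeGroup G]

theorem cz_uniq (hV : Nab V) (k : Cz φ V α) (k' : Cz φ V α') : α' = α := by
  obtain ⟨g, rfl⟩ := mkOut_eq_iff.1 (k'.1.trans k.1.symm)
  obtain ⟨a, ha, b, hb, e⟩ := hV
  rw [Q2T4A.eq_one_of_comm e (cz_comm k k' ha ha) (cz_comm k k' hb hb), map_one, one_mul]

theorem exp_uniq (hV : Nab V) (hc : c ≠ 1) {m n : ℤ} (k : Cz φ V (MulAut.conj (c ^ m) * α))
    (k' : Cz φ V (MulAut.conj (c ^ n) * α)) : m = n := by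
  have e : MulAut.conj (c ^ n) * α = MulAut.conj (c ^ (n - m)) * (MulAut.conj (c ^ m) * α) := by
    rw [← mul_assoc, ← map_mul, ← zpow_add, sub_add_cancel]
  rw [e] at k'
  obtain ⟨a, ha, b, hb, e'⟩ := hV
  have := Q2T4A.eq_one_of_comm e' (cz_comm k k' ha ha) (cz_comm k k' hb hb)
  have := Q2T4A.zpow_inj hc (this.trans (zpow_zero c).symm)
  omega

variable {B : Type} [Group B] {τ : B →* Out G} {θ θ' : B → ℤ} {γ : MulAut B}

/-- `θ` is the twisting function of the pair `V`, `V'` along `c`. -/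
structure Tw (Q : Set G) (τ : B →* Out G) (V V' : Subgroup G) (c : G) (θ : B → ℤ) : Prop where
  m : MaxQ Q V
  m' : MaxQ Q V'
  ne : V ≠ V'
  cyc : MaxCyc c
  mem : c ∈ V
  mem' : c ∈ V'
  out : ∀ d, d ∉ Deep Q τ → θ d = 0
  tw : ∀ d ∈ Deep Q τ, ∀ α, Cz (τ d) V α → Cz (τ d) V' (MulAut.conj (c ^ θ d) * α)

theorem Tw.uniq (k : Tw Q τ V V' c θ) (k' : Tw Q τ V V' c θ') : θ = θ' := by
  funext d
  by_cases hd : d ∈ Deep Q τ
  · obtain ⟨α, hα⟩ := hd V k.m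
    exact exp_uniq k.m'.2.1 k.cyc.1 (k.tw d hd α hα) (k'.tw d hd α hα)
  · rw [k.out d hd, k'.out d hd]

theorem ex_tw (m : MaxQ Q V) (m' : MaxQ Q V') (ne : V ≠ V') (cyc : MaxCyc c) (h1 : c ∈ V)
    (h2 : c ∈ V') : ∃ θ, Tw Q τ V V' c θ := by
  have key : ∀ d, ∃ n : ℤ, (d ∉ Deep Q τ → n = 0) ∧ (d ∈ Deep Q τ → ∀ α, Cz (τ d) V α →
      Cz (τ d) V' (MulAut.conj (c ^ n) * α)) := fun d => by
    by_cases hd : d ∈ Deep Q τ
    · obtain ⟨α, hα⟩ := hd V m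
      obtain ⟨α', hα'⟩ := hd V' m'
      obtain ⟨g, rfl⟩ := mkOut_eq_iff.1 (hα'.1.trans hα.1.symm)
      obtain ⟨n, rfl⟩ := cyc.2 g (cz_comm hα hα' h1 h2)
      refine ⟨n, fun k => absurd hd k, fun _ α₁ k => ?_⟩
      rwa [cz_uniq m.2.1 hα k]
    · exact ⟨0, fun _ => rfl, fun k => absurd k hd⟩
  choose θ t1 t2 using key
  exact ⟨θ, m, m', ne, cyc, h1, h2, t1, t2⟩

theorem Tw.add (k : Tw Q τ V V' c θ) {a b : B} (ha : a ∈ Deep Q τ) (hb : b ∈ Deep Q τ) :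
    θ (a * b) = θ a + θ b := by
  obtain ⟨α, hα⟩ := ha V k.m
  obtain ⟨α', hα'⟩ := hb V k.m
  have h1 := k.tw _ (mul_mem ha hb) (α * α') (map_mul τ a b ▸ cz_mul hα hα')
  have h2 := cz_mul (k.tw a ha α hα) (k.tw b hb α' hα')
  rw [← map_mul, mul_assoc, ← mul_assoc α, mul_conj, map_zpow α, hα.2 c k.mem, mul_assoc,
    ← mul_assoc, ← map_mul, ← zpow_add] at h2
  exact exp_uniq k.m'.2.1 k.cyc.1 h1 h2

omit [IsFreeGroup G] in
theorem deep_move (hβ : Pres Q β) (e : ∀ b, mkOut G β * τ b * (mkOut G β)⁻¹ = τ (γ b)) {d : B}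
    (hd : d ∈ Deep Q τ) : γ d ∈ Deep Q τ := fun V hV => by
  obtain ⟨α, hα⟩ := hd _ (maxQ_img (pres_inv hβ) hV)
  have := cz_img (β := β) hα
  rw [e, img_inv] at this
  exact ⟨_, this⟩

omit [IsFreeGroup G] in
theorem deep_iff (hβ : Pres Q β) (e : ∀ b, mkOut G β * τ b * (mkOut G β)⁻¹ = τ (γ b)) (d : B) :
    γ d ∈ Deep Q τ ↔ d ∈ Deep Q τ := by
  refine ⟨fun hd => ?_, deep_move hβ e⟩
  have := deep_move (γ := γ⁻¹) (pres_inv hβ) (fun b => by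
    have h := e (γ⁻¹ b)
    rw [MulAut.apply_inv_self] at h
    rw [← h, map_inv]
    group) hd
  rwa [MulAut.inv_apply_self] at this

theorem Tw.move (k : Tw Q τ V V' c θ) (hβ : Pres Q β)
    (e : ∀ b, mkOut G β * τ b * (mkOut G β)⁻¹ = τ (γ b)) :
    Tw Q τ (img β V) (img β V') (β c) fun d => θ (γ⁻¹ d) := by
  have hd : ∀ d, d ∈ Deep Q τ ↔ γ⁻¹ d ∈ Deep Q τ := fun d => by
    rw [← deep_iff hβ e (γ⁻¹ d), MulAut.apply_inv_self]
  refine ⟨maxQ_img hβ k.m, maxQ_img hβ k.m', fun h => k.ne (img_inj h), k.cyc.map β,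
    ⟨c, k.mem, rfl⟩, ⟨c, k.mem', rfl⟩, fun d h => k.out _ fun h' => h ((hd d).2 h'),
    fun d h α hα => ?_⟩
  obtain ⟨α₀, h0⟩ := (hd d).1 h V k.m
  have h1 := cz_img (β := β) h0
  have h2 := cz_img (β := β) (k.tw _ ((hd d).1 h) α₀ h0)
  rw [e, MulAut.apply_inv_self] at h1 h2
  rw [cz_uniq (nab_img k.m.2.1) h1 hα, ← map_zpow β]
  rwa [← mul_assoc, mul_conj, mul_assoc, mul_assoc, ← mul_assoc β] at h2

theorem fin_pair (hF : VcFin Q) (V V' : Subgroup G) : {θ | ∃ c, Tw Q τ V V' c θ}.Finite := by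
  by_cases h : ∃ c θ, Tw Q τ V V' c θ
  · obtain ⟨c₀, θ₀, k₀⟩ := h
    have s : ∀ c, {θ | Tw Q τ V V' c θ}.Finite := fun c =>
      Set.Subsingleton.finite fun _ k _ k' => Tw.uniq k k'
    refine ((s c₀).union (s c₀⁻¹)).subset ?_
    rintro θ ⟨c, k⟩
    rcases k₀.cyc.eq_or k.cyc (hF.ab V V' k.m k.m' k.ne _ _ k₀.mem k₀.mem' k.mem k.mem') with
      rfl | rfl
    · exact Or.inl k
    · exact Or.inr k
  · exact Set.finite_empty.subset fun θ ⟨c, k⟩ => h ⟨c, θ, k⟩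

end RV3

open RV3

theorem rowV3 : StmtV3 := by
  intro G _ _ Q hQ hF B _ τ
  refine ⟨{θ | ∃ V V' c, Tw Q τ V V' c θ}, ?_, ?_, fun γ β hβ e => ⟨deep_iff hβ e, ?_⟩, ?_⟩
  · obtain ⟨L, hL, h⟩ := hF.fin2
    refine (hL.biUnion fun p _ => fin_pair (τ := τ) hF p.1 p.2).subset ?_
    rintro θ ⟨V, V', c, k⟩
    obtain ⟨g, hg⟩ := h V V' k.m k.m' k.ne ⟨c, k.cyc.1, k.mem, k.mem'⟩
    exact Set.mem_biUnion hg ⟨_, k.move (γ := 1) (pres_conj hQ g) fun b => by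
      rw [mkOut_conj, one_mul, inv_one, mul_one, MulAut.one_apply]⟩
  · rintro θ ⟨V, V', c, k⟩ a ha b hb
    exact k.add ha hb
  · rintro θ ⟨V, V', c, k⟩
    exact ⟨_, ⟨_, _, _, k.move hβ e⟩, fun d _ => by rw [MulAut.inv_apply_self]⟩
  · rintro d hd h V V' m m' ⟨a, ha, h1, h2⟩ α hα
    by_cases ne : V = V'
    · exact ne ▸ hα
    obtain ⟨r, hr, -, hc⟩ := Q2T4A.ex_maxCyc ha
    have hra := (hc r).2 (Subgroup.mem_zpowers r)
    obtain ⟨θ, k⟩ := ex_tw (τ := τ) m m' ne hr (hF.root V a r m h1 ha hra)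
      (hF.root V' a r m' h2 ha hra)
    have := k.tw d hd α hα
    rwa [h θ ⟨V, V', r, k⟩, zpow_zero, map_one, one_mul] at this

end Pool.Agent.MP_3ce0a0_al.Q2T10
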