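import Pool.Agent.MP_3ce0a0_al.Q2T10.In
import Pool.Agent.MP_3ce0a0_al.Q2T2.All
import Pool.Agent.MP_3ce0a0_al.Q2T10.RQ
import Pool.Agent.MP_3ce0a0_al.Q2T10.RA
import Pool.Agent.MP_3ce0a0_al.Q2T10.RB
import Pool.Agent.MP_3ce0a0_al.Q2T10.RRK
import Pool.Agent.MP_3ce0a0_al.Q2T10.RUp
import Pool.Agent.MP_3ce0a0_al.Q2T10.RV1
import Pool.Agent.MP_3ce0a0_al.Q2T10.RV2
import Pool.Agent.MP_3ce0a0_al.Q2T10.RV3
import Pool.Agent.MP_3ce0a0_al.Q2T10.RV4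

/-! The assembly of the block. -/

set_option autoImplicit false

namespace Pool.Agent.MP_3ce0a0_al.Q2T10

open Q2T1 Q2T3 MulAction
open H79 (Out)
open Q2T15 (mkOut)

namespace Asm

variable {G : Type} [Group G] {Q : Set G} {S : GT G}

theorem conj_ne {a : G} (h : a ≠ 1) (g : G) : g * a * g⁻¹ ≠ 1 := fun e => h (by simpa using e)

theorem rel_conj (hQ : CI Q) (hS : Spl Q S) {a g : G} {x : S.X} (ha : a ∈ Q) (h1 : a ≠ 1)
    (h2 : a • x = x) : g • x = x ↔ Rel Q a (g * a * g⁻¹) := by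
  rw [← hS.rel a ha h1 _ (hQ g a ha) (conj_ne h1 g) x h2]
  refine ⟨fun h => ?_, fun h => RB.fix_uniq hS.triv (conj_ne h1 g) ?_ h⟩
  · rw [mul_smul, mul_smul, inv_smul_eq_iff.2 h.symm, h2, h]
  · rw [mul_smul, inv_smul_smul, mul_smul, h2]

theorem ell_iff (hQ : CI Q) (hS : Spl Q S) (g : G) :
    Ell S.X g ↔ g = 1 ∨ ∃ a ∈ Q, a ≠ 1 ∧ Rel Q a (g * a * g⁻¹) := by
  constructor
  · rintro ⟨x, hx⟩
    by_cases e : g = 1
    · exact Or.inl e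
    obtain ⟨a, ha, h1, h2⟩ := hS.cls x g e hx
    exact Or.inr ⟨a, ha, h1, (rel_conj hQ hS ha h1 h2).1 hx⟩
  · rintro (rfl | ⟨a, ha, h1, h2⟩)
    · exact ⟨S.ne.some, one_smul _ _⟩
    · obtain ⟨x, hx⟩ := hS.ell a ha
      exact ⟨x, (rel_conj hQ hS ha h1 hx).2 h2⟩

theorem rel_map {α : MulAut G} (hα : Pres Q α) {a b : G} (h : Rel Q a b) :
    Rel Q (α a) (α b) := by
  refine Relation.ReflTransGen.lift (p := Rel1 Q) α (fun a b k => ?_) a b h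
  refine ⟨by simpa using k.1, by simpa using k.2.1, fun g hg => ?_⟩
  have h1 : Subgroup.closure ({α a, α b} : Set G) =
      (Subgroup.closure ({a, b} : Set G)).map α.toMonoidHom := by
    rw [MonoidHom.map_closure, Set.image_pair]
    rfl
  rw [h1] at hg
  obtain ⟨u, hu, rfl⟩ := hg
  exact (hα u).2 (k.2.2 u hu)

theorem ell_map (hQ : CI Q) (hS : Spl Q S) {α : MulAut G} (hα : Pres Q α) {g : G}
    (h : Ell S.X g) : Ell S.X (α g) := by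
  rcases (ell_iff hQ hS g).1 h with rfl | ⟨a, ha, h1, h2⟩
  · rwa [map_one]
  · refine (ell_iff hQ hS _).2 (Or.inr ⟨α a, (hα a).2 ha, by simpa using h1, ?_⟩)
    simpa only [map_mul, map_inv] using rel_map hα h2

theorem pres_inv {α : MulAut G} (hα : Pres Q α) : Pres Q α⁻¹ := fun g => by
  rw [← hα (α⁻¹ g), MulAut.apply_inv_self]

theorem h3_list {A : Set G} {F₀ : Subgroup G} (l : List (Out G)) (h : ∀ φ ∈ l, H3 A F₀ φ)
    (hc : l.Pairwise Commute) : H3 A F₀ l.prod := by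
  induction l with
  | nil => exact RQ.h3_one A F₀
  | cons φ l ih =>
    rw [List.pairwise_cons] at hc
    rw [List.prod_cons]
    exact RQ.h3_mul (Commute.list_prod_right _ _ hc.1) (h φ List.mem_cons_self)
      (ih (fun ψ k => h ψ (List.mem_cons_of_mem _ k)) hc.2)

theorem ex_rel (hQ : CI Q) (hS : Spl Q S) {W : Subgroup G} (hW : ∀ w ∈ W, Ell S.X w)
    (hN : Nab W) : ∃ a : G, a ≠ 1 ∧ ∀ w ∈ W, Rel Q a (w * a * w⁻¹) := by
  obtain ⟨b, hb, c, -, hbc⟩ := hN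
  have h1 : b ≠ 1 := fun e => hbc (e ▸ Commute.one_left c)
  obtain ⟨x, hx⟩ := hW b hb
  obtain ⟨a, ha, h2, h3⟩ := hS.cls x b h1 hx
  refine ⟨a, h2, fun w hw => (rel_conj hQ hS ha h2 h3).1 ?_⟩
  obtain ⟨y, k1, k2⟩ := In.serre2 (hW b hb) (hW w hw) (hW _ (W.mul_mem hb hw))
  rw [RB.fix_uniq hS.triv h1 hx k1, k2]

end Asm

open Asm in
theorem t10 : StmtT10 := by
  intro F _ _ hF Φ hΦ
  obtain ⟨hQ, hP, hT, -⟩ := rowQ F Φ
  obtain ⟨T, hH⟩ := rowA (rowRK inX1 inX4) (rowUp (inBU Q2T2.sBU')) (rowDown inCol inSer) F (QS Φ)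
    (FinRk.of_fg hF) hQ fun g hg => by
      obtain ⟨φ, hφ⟩ := not_forall.1 hg
      obtain ⟨h1, h2⟩ := Classical.not_imp.1 hφ
      obtain ⟨T, h3⟩ := hΦ φ h1
      exact ⟨T, (hT φ h1 T h3).1, fun k => h2 ((hT φ h1 T h3).2.1 g k)⟩
  obtain ⟨S, hS⟩ := rowB inCol inSer F _ T hH
  have hV := rowV1 inSer F _ T hH
  refine ⟨S, hS.cocpt, hS.triv, hS.ell, fun α h g => ⟨fun k => ?_, ell_map hQ hS (hP α h)⟩,
    fun F₀ h1 h2 l hl hc => h3_list l (fun φ hφ => ?_) hc, fun B _ τ hτ => ?_⟩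
  · have := ell_map hQ hS (pres_inv (hP α h)) k
    rwa [MulAut.inv_apply_self] at this
  · obtain ⟨T', h3⟩ := hΦ φ (hl φ hφ)
    exact (hT φ (hl φ hφ) T' h3).2.2 _ F₀ hS.ell h1 h2
  obtain ⟨Θ, k1, k2, k3, k4⟩ := rowV3 F _ hQ hV B τ
  refine ⟨Deep (QS Φ) τ, Θ, rowV2 F _ hQ hV B τ (fun b α e => hP α (e ▸ (hτ b).2))
    fun b V h => ?_, k1, k2, fun γ ψ h e => ?_, fun d hd h W hW hN => ?_⟩
  · obtain ⟨T', h3⟩ := hΦ _ (hτ b).1
    obtain ⟨x, hx⟩ := (inSer F T').1 V (hV.fg V h) fun g hg => h3.ell g (h.1 g hg)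
    obtain ⟨N, hN, h4⟩ := h3.lift
    obtain ⟨α, h5, h6⟩ := h4 x
    exact ⟨N, hN, α, h5, fun w hw => h6 w (hx w hw)⟩
  · obtain ⟨β, rfl⟩ := RQ.mk_surj ψ
    exact k3 γ β (hP β h) e
  · obtain ⟨a, h1, h2⟩ := ex_rel hQ hS hW hN
    exact rowV4 F _ hQ hV (τ d) hd (k4 d hd h) W a h1 hN h2

end Pool.Agent.MP_3ce0a0_al.Q2T10
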