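import Pool.Agent.MP_3ce0a0_al.Q2T10.Spec
import Pool.Agent.MP_3ce0a0_al.Q2T1.Isom
import Pool.Agent.MP_3ce0a0_al.Q2T2.Col
import Pool.Agent.MP_3ce0a0_al.Q2T2.RCol
import Pool.Agent.MP_3ce0a0_al.Q2T2.Graph
import Pool.Agent.MP_3ce0a0_al.Q2T3.S

/-! The inputs from the other blocks, in the form used by the rows. -/

set_option autoImplicit false

namespace Pool.Agent.MP_3ce0a0_al.Q2T10

open Q2T1 Q2T3 MulAction

namespace In

variable {G X : Type} [Group G] [MetricSpace X] [MulAction G X] [IsIsometricSMul G X]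

theorem ell_of_sq [IsSimp X] (hN : NoInv X (⊤ : Subgroup G)) (g : G) (m : X)
    (h : g • g • m = m) : Ell X g := by
  obtain ⟨n, hn⟩ := IsSimp.int m (g • m)
  induction n using Nat.strong_induction_on generalizing m with
  | _ n ih =>
    by_cases e : m = g • m
    · exact ⟨m, e.symm⟩
    obtain ⟨z, h1, h2⟩ := IsSimp.geo m (g • m) e
    have h3 : Btw m (g • z) (g • m) := by
      have := h2.smul g
      rw [h] at this
      exact this.symm
    have h4 : g • g • z = z := by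
      have k := (h2.smul g).smul g
      rw [h] at k
      refine k.eq_of_dist h2 ?_
      conv_lhs => rw [← h, dist_smul, dist_smul]
    have h5 : dist (g • z) (g • m) = 1 := by rw [dist_smul, dist_comm, h1]
    have h6 := h2.dist_eq_abs h3
    have h7 : dist m (g • z) = n - 1 := by
      unfold Q2T1.Btw at h3
      linarith
    have h8 : n ≠ 1 := by
      rintro rfl
      exact hN g trivial m (by simpa using hn) h
    have h9 : n ≠ 0 := by
      rintro rfl
      exact e (dist_eq_zero.1 (by simpa using hn))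
    obtain ⟨k, rfl⟩ : ∃ k, n = k + 2 := ⟨n - 2, by omega⟩
    refine ih k (by omega) z h4 ?_
    rw [h6, h1, h7]
    push_cast
    rw [abs_of_nonpos (by linarith [(Nat.cast_nonneg k : (0 : ℝ) ≤ k)])]
    ring

theorem dich [IsSimp X] [Nonempty X] (hN : NoInv X (⊤ : Subgroup G)) (g : G) :
    Ell X g ∨ Hyp X g := by
  rcases hyp_or_sq_fix g (Classical.arbitrary X) with h | ⟨m, h⟩
  · exact Or.inr h
  · exact Or.inl (ell_of_sq hN g m h)

theorem serre2 [IsTree X] {g h : G} (hg : Ell X g) (hh : Ell X h) (hm : Ell X (g * h)) :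
    ∃ x : X, g • x = x ∧ h • x = x := by
  obtain ⟨y, -⟩ := id hg
  obtain ⟨p, q, hp, hq⟩ := (gated_Ch (Or.inl hg)).bridge (gated_Ch (Or.inl hh)) y
  have e1 := hg.mem_Ch.1 hp.1
  have e2 := hh.mem_Ch.1 hq.1
  by_cases e : p = q
  · exact ⟨p, e1, e ▸ e2⟩
  exfalso
  have h1 : Btw q p (g • q) := hp.btw_smul.2.2.1
  have h2 : Btw q p (g⁻¹ • q) := hp.btw_inv_smul
  have h3 : g • q ∈ dir q p := h1.mem_dir e
  have h4 : g⁻¹ • q ∈ dir q p := h2.mem_dir e
  have h5 : Btw (g • q) q (h • g • q) := (hq.of_mem_dir h3).btw_smul.2.2.1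
  have h6 : h • g • q ∉ dir q p := fun k => not_btw_of_mem_dir h3 k h5
  have h7 : Btw (g⁻¹ • q) q (h • g • q) := btw_of_mem_dir h4 h6
  refine (hyp_of_dist_lt (g := g * h) (y := q) ?_).not_ell hm
  have h8 : dist q (g • h • g • q) = dist (g⁻¹ • q) (h • g • q) := by
    rw [← dist_smul g⁻¹, inv_smul_smul]
  have h9 : dist q (h • g • q) = dist q (g • q) := by
    conv_lhs => rw [← e2, dist_smul, e2]
  have h10 : 0 < dist q (g • q) := dist_pos.2 (ne_of_mem_dir h3).symm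
  simp only [mul_smul, e2]
  unfold Q2T1.Btw at h7
  rw [h8, ← h7, h9, dist_inv_smul]
  linarith

theorem serre [IsTree X] [Nonempty X] (H : Subgroup G) (hH : H.FG) (h : ∀ g ∈ H, Ell X g) :
    ∃ x : X, ∀ g ∈ H, g • x = x := by
  obtain ⟨s, rfl⟩ := hH
  obtain ⟨x, hx⟩ := helly s (fun g : G => {x : X | g • x = x}) (fun g _ => conv_fix g)
    fun a ha b hb => serre2 (h a (Subgroup.subset_closure ha)) (h b (Subgroup.subset_closure hb))
      (h _ (Subgroup.mul_mem _ (Subgroup.subset_closure ha) (Subgroup.subset_closure hb)))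
  exact ⟨x, mem_Fix_closure.2 hx⟩

end In

theorem inSer : StmtSer := by
  intro G _ T
  have := T.ne
  exact ⟨In.serre, fun g => ⟨(In.dich T.ni g).resolve_left, Hyp.not_ell⟩⟩

theorem inX1 : StmtX1 := by
  intro G _ T l h1 h2 h3
  have := T.ne
  exact s_x1 (ni_top T.ni) l h1 h2 h3

theorem inX4 : StmtX4 := by
  intro G _ T v t h
  have := T.ne
  obtain ⟨φ, h1, h2, h3⟩ := s_x4e (ni_top T.ni) t v h
  exact ⟨fun g => φ g, fun g k => by simp [h1], by simp [h2], fun g x k => by simp [h3 g x k]⟩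

theorem inCol : StmtCol := by
  intro G _ T K hs hg
  have hg' : ∀ (g : G) x y, ¬ K x y → ¬ K (g • x) (g • y) := fun g x y h k =>
    h (by simpa only [inv_smul_smul] using hg g⁻¹ _ _ k)
  obtain ⟨Y, _, _, _, _, p, hp, he, hc⟩ := Q2T2.sCol Q2T2.sGraph G T.X (fun x y => ¬ K x y)
    (fun x y h k => h (hs _ _ k)) hg'
  have hk : ∀ x y, dist x y = 1 → (p x ≠ p y ↔ K x y) := fun x y h => by
    rw [Ne, hc x y h, not_not]
  refine ⟨⟨Y, T.ne.map p, hp.noInv he T.ni⟩, p, hp.onto, he, hp.btw, fun x y => ?_,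
    fun x y h k => hp.edge h ((hk x y h).2 k), fun u w h => ?_,
    fun x y x' y' h1 h2 k _ => hp.inj h1 h2 ((hk x y h1).2 k)⟩
  · refine ⟨fun e a b h => (hc a b h.1).1 (hp.fib.1 e a b h.1 ?_ ?_), fun k => ?_⟩
    · exact h.2.1.concat_left h.2.2 (Q2T2.ne_of_edge h.1)
    · exact h.2.1.concat_right h.2.2 (Q2T2.ne_of_edge h.1)
    · exact Q2T2.seg_ind (P := fun z => p x = p z) rfl fun a b h1 h2 h3 h4 =>
        h4.trans ((hc a b h1).2 (k a b ⟨h1, h2, h2.trans_left' h3⟩))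
  · obtain ⟨x, y, h1, rfl, rfl⟩ := hp.lift h
    exact ⟨x, y, h1, (hk x y h1).1 (Q2T2.ne_of_edge h), rfl, rfl⟩

theorem inBU (hB : Q2T2.SBU') : StmtBU := by
  intro G _ T Y hY
  have := fun v => (Y v).ne
  obtain ⟨Z, _, _, _, _, p, R, j, hp, he, h1, h2, h3⟩ := hB G T.X (fun v => (Y v).X) hY
  have h4 : ∀ v, ∃ g : G, g • v ∈ R := fun v => by
    obtain ⟨r, hr, g, rfl⟩ := h1 v
    exact ⟨g⁻¹, by rwa [inv_smul_smul]⟩
  refine ⟨⟨Z, ⟨(hp.onto T.ne.some).choose⟩, hp.noInv_up he T.ni fun g _ z k1 k2 k3 => ?_⟩, p, R, j,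
    he, h4, h2, fun v hv => (h3 v hv).1.dist_eq, fun v hv => (h3 v hv).2.1,
    fun v hv => (h3 v hv).2.2, hp.adj, fun z z' u u' => hp.inj⟩
  obtain ⟨a, ha⟩ := h4 (p z)
  obtain ⟨i1, i2, i3⟩ := h3 _ ha
  obtain ⟨y, hy⟩ := (i3 (a • z)).1 (he a z)
  have k4 : a * g * a⁻¹ ∈ stabilizer G (a • p z) := by
    rw [mem_stabilizer_iff, mul_smul, mul_smul, inv_smul_smul, ← he g, k2]
  have k5 : ∀ y' z', j _ y' = a • z' →
      j _ ((⟨_, k4⟩ : stabilizer G (a • p z)) • y') = a • g • z' := fun y' z' e => by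
    rw [i2, e]
    simp only [mul_smul, inv_smul_smul]
  refine (Y _).ni ⟨_, k4⟩ trivial y ?_ (i1.injective ?_)
  · rw [← i1.dist_eq, k5 y z hy, hy, dist_smul, k1]
  · rw [k5 _ _ (k5 y z hy), k3, hy]

end Pool.Agent.MP_3ce0a0_al.Q2T10
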