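import Pool.Agent.MP_3ce0a0_al.Q2T10.Spec

/-! Row V4: the stabiliser of a class is centralised. -/

set_option autoImplicit false

namespace Pool.Agent.MP_3ce0a0_al.Q2T10

open H79 (Out)

namespace RV4

variable {G : Type} [Group G] {Q : Set G}

theorem left_mem (a b : G) : a ∈ Subgroup.closure ({a, b} : Set G) :=
  Subgroup.subset_closure (Set.mem_insert _ _)

theorem right_mem (a b : G) : b ∈ Subgroup.closure ({a, b} : Set G) :=
  Subgroup.subset_closure (Set.mem_insert_of_mem _ rfl)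

theorem symm1 {a b : G} (h : Rel1 Q a b) : Rel1 Q b a :=
  ⟨h.2.1, h.1, by rw [Set.pair_comm]; exact h.2.2⟩

theorem symm {a b : G} (h : Rel Q a b) : Rel Q b a := by
  induction h with
  | refl => exact Relation.ReflTransGen.refl
  | tail _ h2 ih => exact Relation.ReflTransGen.head (symm1 h2) ih

theorem conj_ne {a : G} (ha : a ≠ 1) (w : G) : w * a * w⁻¹ ≠ 1 := fun h => ha (by
  rw [mul_inv_eq_one, mul_eq_left] at h; exact h)

theorem conj1 (hQ : CI Q) (w : G) {a b : G} (h : Rel1 Q a b) :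
    Rel1 Q (w * a * w⁻¹) (w * b * w⁻¹) := by
  refine ⟨conj_ne h.1 w, conj_ne h.2.1 w, fun g hg => ?_⟩
  have hle : Subgroup.closure ({w * a * w⁻¹, w * b * w⁻¹} : Set G) ≤
      (Subgroup.closure ({a, b} : Set G)).map (MulAut.conj w).toMonoidHom := by
    refine (Subgroup.closure_le _).2 ?_
    rintro x (rfl | rfl)
    · exact ⟨a, left_mem a b, rfl⟩
    · exact ⟨b, right_mem a b, rfl⟩
  obtain ⟨x, hx, rfl⟩ := hle hg
  exact hQ w x (h.2.2 x hx)

theorem conj (hQ : CI Q) (w : G) {a b : G} (h : Rel Q a b) :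
    Rel Q (w * a * w⁻¹) (w * b * w⁻¹) := by
  induction h with
  | refl => exact Relation.ReflTransGen.refl
  | tail _ h2 ih => exact Relation.ReflTransGen.tail ih (conj1 hQ w h2)

theorem ne_one {a b : G} (ha : a ≠ 1) (h : Rel Q a b) : b ≠ 1 := by
  induction h with
  | refl => exact ha
  | tail _ h2 _ => exact h2.2.1

theorem ext1 (hV : VcFin Q) {a b : G} (h : Rel1 Q a b) (hc : ¬ Commute a b) :
    ∃ V, MaxQ Q V ∧ a ∈ V ∧ b ∈ V := by
  obtain ⟨V, h1, h2⟩ := hV.ext _ h.2.2 ⟨a, left_mem a b, b, right_mem a b, hc⟩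
  exact ⟨V, h1, h2 (left_mem a b), h2 (right_mem a b)⟩

theorem rel_of_mem {V : Subgroup G} (hV : MaxQ Q V) {a b : G} (ha : a ∈ V) (hb : b ∈ V)
    (ha1 : a ≠ 1) (hb1 : b ≠ 1) : Rel Q a b :=
  Relation.ReflTransGen.single ⟨ha1, hb1, fun g hg => hV.1 g ((Subgroup.closure_le V).2 (by
    rintro x (rfl | rfl)
    · exact ha
    · exact hb) hg)⟩

variable [IsFreeGroup G]

theorem comm (hV : VcFin Q) {a : G} (ha : a ≠ 1)
    (hn : ¬ ∃ V a0, MaxQ Q V ∧ a0 ∈ V ∧ Rel Q a a0) {b : G} (h : Rel Q a b) : Commute a b := by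
  induction h with
  | refl => exact Commute.refl a
  | tail h1 h2 ih =>
    refine Q2T4A.comm_trans h2.1 ih (by_contra fun hc => ?_)
    obtain ⟨V, k1, k2, -⟩ := ext1 hV h2 hc
    exact hn ⟨V, _, k1, k2, h1⟩

theorem step (hV : VcFin Q) {φ : Out G} (hA : Agree Q φ) {σ : MulAut G} {b b' : G}
    (h : Rel1 Q b b') (hb : σ b = b ∧ ∀ V, MaxQ Q V → b ∈ V → Cz φ V σ) :
    σ b' = b' ∧ ∀ V, MaxQ Q V → b' ∈ V → Cz φ V σ := by
  by_cases hc : Commute b b'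
  · obtain ⟨r, -, ⟨s, hs, e⟩, hr⟩ := Q2T4A.ex_maxCyc h.1
    have h1 : σ r = r := zpow_left_injective hs (by
      show σ r ^ s = r ^ s
      rw [← map_zpow, ← e, hb.1])
    obtain ⟨i, hi⟩ := (hr b').1 hc.symm
    refine ⟨?_, fun V k1 k2 => hb.2 V k1 (hV.root V b' b k1 k2 h.2.1 hc)⟩
    rw [← hi]
    show σ (r ^ i) = r ^ i
    rw [map_zpow, h1]
  · obtain ⟨V1, k1, k2, k3⟩ := ext1 hV h hc
    have h1 := hb.2 V1 k1 k2
    exact ⟨h1.2 b' k3, fun V k4 k5 => hA V1 V k1 k4 ⟨b', h.2.1, k3, k5⟩ σ h1⟩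

end RV4

theorem rowV4 : StmtV4 := by
  intro G _ _ Q hQ hV φ hφ hA W a ha hW hR
  by_cases hn : ∃ V a0, MaxQ Q V ∧ a0 ∈ V ∧ Rel Q a a0
  · obtain ⟨V0, a0, h1, h2, h3⟩ := hn
    have ha0 := RV4.ne_one ha h3
    obtain ⟨σ, hσ⟩ := hφ V0 h1
    have hI : ∀ b, Rel Q a0 b → σ b = b ∧ ∀ V, MaxQ Q V → b ∈ V → Cz φ V σ := fun b hb => by
      induction hb with
      | refl => exact ⟨hσ.2 a0 h2, fun V k1 k2 => hA V0 V h1 k1 ⟨a0, ha0, h2, k2⟩ σ hσ⟩
      | tail _ k ih => exact RV4.step hV hA k ih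
    refine ⟨σ, hσ.1, fun w hw => ?_⟩
    have hc : ∀ v ∈ V0, v ≠ 1 → Commute (w⁻¹ * σ w) v := fun v hv hv1 => by
      have k1 : Rel Q a0 (w * v * w⁻¹) := ((RV4.symm h3).trans (hR w hw)).trans
        (RV4.conj hQ w (h3.trans (RV4.rel_of_mem h1 h2 hv ha0 hv1)))
      have k2 := (hI _ k1).1
      rw [map_mul, map_mul, map_inv, hσ.2 v hv, mul_inv_eq_iff_eq_mul] at k2
      show w⁻¹ * σ w * v = v * (w⁻¹ * σ w)
      rw [mul_assoc, k2]; group
    obtain ⟨x, hx, y, hy, hxy⟩ := h1.2.1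
    have hx1 : x ≠ 1 := by rintro rfl; exact hxy (Commute.one_left y)
    have hy1 : y ≠ 1 := by rintro rfl; exact hxy (Commute.one_right x)
    exact (inv_mul_eq_one.1 (Q2T4A.eq_one_of_comm hxy (hc x hx hx1) (hc y hy hy1))).symm
  · obtain ⟨x, hx, y, hy, hxy⟩ := hW
    have hc : ∀ w ∈ W, Commute w a := fun w hw =>
      Q2T4A.comm_of_conj ha (RV4.comm hV ha hn (hR w hw))
    exact absurd (Q2T4A.comm_trans ha (hc x hx) (hc y hy).symm) hxy

end Pool.Agent.MP_3ce0a0_al.Q2T10
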