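import Pool.Agent.MP_3ce0a0_al.Q2T1.Basic
import Pool.Agent.MP_3ce0a0_al.Q2T3.B
import Pool.Agent.MP_3ce0a0_al.Q2T4A.Alg
import Pool.Agent.MP_3ce0a0_al.Q2T15.Defs

/-!
The hierarchy of splittings, the invariant free splitting and the sections on the non-abelian
pieces: definitions and the statements of the rows.
-/

set_option autoImplicit false

namespace Pool.Agent.MP_3ce0a0_al.Q2T10

open Q2T1 Q2T3 MulAction
open H79 (Out)
open Q2T15 (mkOut)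
open Q2T4A (MaxCyc)

/-- Simplicial trees with an action without inversion. -/
structure GT (G : Type) [Group G] where
  /-- the vertices -/
  X : Type
  [m : MetricSpace X]
  [a : MulAction G X]
  [i : IsIsometricSMul G X]
  [s : IsSimp X]
  ne : Nonempty X
  ni : NoInv X (⊤ : Subgroup G)

attribute [instance] GT.m GT.a GT.i GT.s

variable {G : Type} [Group G]

/-- Finitely many orbits of vertices and of edges. -/
def GT.Cocpt (T : GT G) : Prop :=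
  ∃ A : Set T.X, A.Finite ∧ (∀ x, ∃ g : G, g • x ∈ A) ∧
    ∀ x y, dist x y = 1 → ∃ g : G, g • x ∈ A ∧ g • y ∈ A

/-- An edge group is the centraliser of each of its non-trivial elements. -/
def GT.EdgeC (T : GT G) : Prop :=
  ∀ x y : T.X, dist x y = 1 → ∀ c : G, c ≠ 1 → c • x = x → c • y = y →
    ∀ g : G, Commute g c ↔ g • x = x ∧ g • y = y

/-- Trivial edge groups. -/
def GT.Triv (T : GT G) : Prop :=
  ∀ x y : T.X, dist x y = 1 → ∀ g : G, g • x = x → g • y = y → g = 1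

/-- The edge from `a` to `b` lies on the way from `x` to `y`. -/
def On {X : Type} [MetricSpace X] (x a b y : X) : Prop := dist a b = 1 ∧ Btw x a b ∧ Btw a b y

/-- `T'` is the tree obtained from `T` by collapsing the edges that are not kept by `K`. -/
structure IsCol (T T' : GT G) (K : T.X → T.X → Prop) (π : T.X → T'.X) : Prop where
  surj : Function.Surjective π
  smul : ∀ (g : G) x, π (g • x) = g • π x
  btw : ∀ x y z, Btw x y z → Btw (π x) (π y) (π z)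
  eq : ∀ x y, π x = π y ↔ ∀ a b, On x a b y → ¬ K a b
  kept : ∀ x y, dist x y = 1 → K x y → dist (π x) (π y) = 1
  lift : ∀ u w, dist u w = 1 → ∃ x y, dist x y = 1 ∧ K x y ∧ π x = u ∧ π y = w
  uniq : ∀ x y x' y', dist x y = 1 → dist x' y' = 1 → K x y → K x' y' → π x = π x' →
    π y = π y' → x = x' ∧ y = y'

/-- `Z` is obtained from `T` by blowing up the vertices, using trees of the vertex groups. -/
structure IsBU (T : GT G) (Y : ∀ v : T.X, GT (stabilizer G v)) (Z : GT G) (π : Z.X → T.X)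
    (R : Set T.X) (j : ∀ v, (Y v).X → Z.X) : Prop where
  smul : ∀ (g : G) z, π (g • z) = g • π z
  rep : ∀ v, ∃ g : G, g • v ∈ R
  inj : ∀ v ∈ R, ∀ w ∈ R, ∀ g : G, g • v = w → v = w
  iso : ∀ v ∈ R, ∀ y y', dist (j v y) (j v y') = dist y y'
  j_smul : ∀ v ∈ R, ∀ (h : stabilizer G v) y, j v (h • y) = (h : G) • j v y
  fib : ∀ v ∈ R, ∀ z, π z = v ↔ ∃ y, j v y = z
  edge : ∀ z z', dist z z' = 1 → π z = π z' ∨ dist (π z) (π z') = 1
  uniq : ∀ z z' u u', dist z z' = 1 → dist u u' = 1 → π z ≠ π z' → π z = π u → π z' = π u' →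
    z = u ∧ z' = u'

/-- Invariance under conjugation. -/
def CI (Q : Set G) : Prop := ∀ g h, h ∈ Q → g * h * g⁻¹ ∈ Q

/-- Admissible trees. -/
structure Adm (Q : Set G) (T : GT G) : Prop where
  ell : ∀ g ∈ Q, Ell T.X g
  edge : ∀ x y : T.X, dist x y = 1 → ∀ g : G, g • x = x → g • y = y → g ∈ Q
  cen : T.EdgeC

/-- The tree at the end of the hierarchy. -/
structure Hier (Q : Set G) (T : GT G) : Prop where
  cocpt : T.Cocpt
  ell : ∀ g, g ∈ Q ↔ Ell T.X g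
  fg : ∀ x : T.X, (stabilizer G x).FG
  cen : T.EdgeC

/-- The homomorphisms that kill `Q`. -/
def InvQ (Q : Set G) : Submodule ℚ (Hm G) where
  carrier := {φ | ∀ g ∈ Q, φ (Additive.ofMul g) = 0}
  zero_mem' := fun _ _ => rfl
  add_mem' := fun {φ ψ} h k g hg => by rw [AddMonoidHom.add_apply, h g hg, k g hg, add_zero]
  smul_mem' := fun c φ h g hg => by rw [AddMonoidHom.smul_apply, h g hg, smul_zero]

/-- The complexity. -/
noncomputable def cx (Q : Set G) : ℕ := rk G + Module.finrank ℚ (InvQ Q)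

/-- The trace of `Q` on a subgroup. -/
def tr (Q : Set G) (H : Subgroup G) : Set H := {h | (h : G) ∈ Q}

/-- One orbit of edges. -/
def GT.One (T : GT G) : Prop :=
  ∀ x y x' y' : T.X, dist x y = 1 → dist x' y' = 1 →
    ∃ g : G, (g • x = x' ∧ g • y = y') ∨ (g • x = y' ∧ g • y = x')

/-- One step of the relation: two non-trivial elements that generate a subgroup inside `Q`. -/
def Rel1 (Q : Set G) (a b : G) : Prop :=
  a ≠ 1 ∧ b ≠ 1 ∧ ∀ g ∈ Subgroup.closure ({a, b} : Set G), g ∈ Q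

/-- The generated relation. -/
def Rel (Q : Set G) : G → G → Prop := Relation.ReflTransGen (Rel1 Q)

/-- The free splitting attached to `Q`. -/
structure Spl (Q : Set G) (S : GT G) : Prop where
  cocpt : S.Cocpt
  triv : S.Triv
  ell : ∀ g ∈ Q, Ell S.X g
  cls : ∀ (x : S.X) (g : G), g ≠ 1 → g • x = x → ∃ a ∈ Q, a ≠ 1 ∧ a • x = x
  rel : ∀ a ∈ Q, a ≠ 1 → ∀ b ∈ Q, b ≠ 1 → ∀ x : S.X, a • x = x → (b • x = x ↔ Rel Q a b)

/-- Non-abelian subgroups. -/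
def Nab (V : Subgroup G) : Prop := ∃ a ∈ V, ∃ b ∈ V, ¬ Commute a b

/-- Maximal non-abelian subgroups inside `Q`. -/
def MaxQ (Q : Set G) (V : Subgroup G) : Prop :=
  (∀ g ∈ V, g ∈ Q) ∧ Nab V ∧ ∀ H : Subgroup G, V ≤ H → (∀ g ∈ H, g ∈ Q) → H ≤ V

/-- The image of a subgroup under an automorphism. -/
abbrev img (α : MulAut G) (V : Subgroup G) : Subgroup G := V.map α.toMonoidHom

/-- Finiteness properties of the maximal non-abelian subgroups inside `Q`. -/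
structure VcFin (Q : Set G) : Prop where
  fg : ∀ V, MaxQ Q V → V.FG
  norm : ∀ V g, MaxQ Q V → (∀ h ∈ V, g * h * g⁻¹ ∈ V) → g ∈ V
  ext : ∀ H : Subgroup G, (∀ g ∈ H, g ∈ Q) → Nab H → ∃ V, MaxQ Q V ∧ H ≤ V
  root : ∀ V a b, MaxQ Q V → a ∈ V → a ≠ 1 → Commute b a → b ∈ V
  ab : ∀ V V', MaxQ Q V → MaxQ Q V' → V ≠ V' → ∀ a b, a ∈ V → a ∈ V' → b ∈ V → b ∈ V' →
    Commute a b
  fin : ∃ L : Set (Subgroup G), L.Finite ∧ ∀ V, MaxQ Q V → ∃ g, img (MulAut.conj g) V ∈ L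
  fin2 : ∃ L : Set (Subgroup G × Subgroup G), L.Finite ∧ ∀ V V', MaxQ Q V → MaxQ Q V' →
    V ≠ V' → (∃ a, a ≠ 1 ∧ a ∈ V ∧ a ∈ V') →
      ∃ g, (img (MulAut.conj g) V, img (MulAut.conj g) V') ∈ L

/-- Automorphisms that preserve `Q`. -/
def Pres (Q : Set G) (α : MulAut G) : Prop := ∀ g, α g ∈ Q ↔ g ∈ Q

/-- `α` is a lift of `φ` that centralises `V`. -/
def Cz (φ : Out G) (V : Subgroup G) (α : MulAut G) : Prop := mkOut G α = φ ∧ ∀ w ∈ V, α w = w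

/-- The elements with a lift that centralises any given maximal non-abelian subgroup. -/
def Deep {B : Type} [Group B] (Q : Set G) (τ : B →* Out G) : Subgroup B where
  carrier := {d | ∀ V, MaxQ Q V → ∃ α, Cz (τ d) V α}
  one_mem' := fun _ _ => ⟨1, by rw [map_one, map_one], fun _ _ => rfl⟩
  mul_mem' := fun {a b} ha hb V hV => by
    obtain ⟨α, h1, h2⟩ := ha V hV
    obtain ⟨β, h3, h4⟩ := hb V hV
    exact ⟨α * β, by rw [map_mul, map_mul, h1, h3],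
      fun w hw => by rw [MulAut.mul_apply, h4 w hw, h2 w hw]⟩
  inv_mem' := fun {a} ha V hV => by
    obtain ⟨α, h1, h2⟩ := ha V hV
    exact ⟨α⁻¹, by rw [map_inv, map_inv, h1],
      fun w hw => by rw [MulAut.inv_apply, MulEquiv.symm_apply_eq, h2 w hw]⟩

/-- The lifts of `φ` that centralise two intersecting maximal subgroups agree. -/
def Agree (Q : Set G) (φ : Out G) : Prop :=
  ∀ V V', MaxQ Q V → MaxQ Q V' → (∃ a, a ≠ 1 ∧ a ∈ V ∧ a ∈ V') → ∀ α, Cz φ V α → Cz φ V' α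

/-- Periodic conjugacy classes. -/
def Per (φ : Out G) (g : G) : Prop := ∃ N : ℕ, 0 < N ∧ ∃ α, mkOut G α = φ ^ N ∧ α g = g

/-- The elements that are periodic under every member of `Φ`. -/
def QS (Φ : Set (Out G)) : Set G := {g | ∀ φ ∈ Φ, Per φ g}

/-- `ψ` normalises `Φ`. -/
def Nm (Φ : Set (Out G)) (ψ : Out G) : Prop := ∀ φ, φ ∈ Φ ↔ ψ * φ * ψ⁻¹ ∈ Φ

/-- What is used of the tree of a Dehn twist. -/
structure TwD (Φ : Set (Out G)) (φ : Out G) (T : GT G) : Prop where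
  ell : ∀ g ∈ QS Φ, Ell T.X g
  edge : ∀ x y : T.X, dist x y = 1 → ∃ c, MaxCyc c ∧ c ∈ QS Φ ∧
    ∀ g : G, (g • x = x ∧ g • y = y) ↔ g ∈ Subgroup.zpowers c
  nab : ∀ x : T.X, Nab (stabilizer G x)
  lift : ∃ N : ℕ, 0 < N ∧ ∀ x : T.X, ∃ α, Cz (φ ^ N) (stabilizer G x) α

/-- A power of `ψ` has a lift that acts trivially modulo the elements of `A` in `F₀`. -/
def H3 (A : Set G) (F₀ : Subgroup G) (ψ : Out G) : Prop :=
  ∃ m : ℕ, 0 < m ∧ ∃ α, mkOut G α = ψ ^ m ∧ ∀ g, α g * g⁻¹ ∈ Subgroup.closure (A ∩ F₀)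

/-! ### Inputs from other blocks -/

/-- Collapse (block T2). -/
def StmtCol : Prop := ∀ (G : Type) [Group G] (T : GT G) (K : T.X → T.X → Prop),
  (∀ x y, K x y → K y x) → (∀ (g : G) x y, K x y → K (g • x) (g • y)) →
    ∃ (T' : GT G) (π : T.X → T'.X), IsCol T T' K π

/-- Blow-up (block T2). -/
def StmtBU : Prop := ∀ (G : Type) [Group G] (T : GT G) (Y : ∀ v : T.X, GT (stabilizer G v)),
  (∀ v w : T.X, dist v w = 1 → ∃ y : (Y v).X, ∀ h : stabilizer G v, (h : G) • w = w → h • y = y) →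
    ∃ (Z : GT G) (π : Z.X → T.X) (R : Set T.X) (j : ∀ v, (Y v).X → Z.X), IsBU T Y Z π R j

/-- Extension of homomorphisms (block T3). -/
def StmtX1 : Prop := ∀ (G : Type) [Group G] (T : GT G) (l : T.X → G → ℚ),
  (∀ v g h, g • v = v → h • v = v → l v (g * h) = l v g + l v h) →
  (∀ v g h, h • v = v → l (g • v) (g * h * g⁻¹) = l v h) →
  (∀ x y h, dist x y = 1 → h • x = x → h • y = y → l x h = l y h) →
    ∃ φ : G → ℚ, (∀ g h, φ (g * h) = φ g + φ h) ∧ ∀ v h, h • v = v → φ h = l v h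

/-- The crossing homomorphism (block T3). -/
def StmtX4 : Prop := ∀ (G : Type) [Group G] (T : GT G) (v : T.X) (t : G), dist v (t • v) = 1 →
  ∃ φ : G → ℚ, (∀ g h, φ (g * h) = φ g + φ h) ∧ φ t ≠ 0 ∧
    ∀ (g : G) (x : T.X), g • x = x → φ g = 0

/-- Serre's lemma and the dichotomy (block T1). -/
def StmtSer : Prop := ∀ (G : Type) [Group G] (T : GT G),
  (∀ H : Subgroup G, H.FG → (∀ g ∈ H, Ell T.X g) → ∃ x : T.X, ∀ g ∈ H, g • x = x) ∧
  (∀ g : G, ¬ Ell T.X g ↔ Hyp T.X g)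

/-- Torsion subgroups of the outer automorphism group are finite (block T8). -/
def StmtTF : Prop := ∀ (V : Type) [Group V] [IsFreeGroup V], Group.FG V →
  ∀ H : Subgroup (Out V), (∀ h ∈ H, IsOfFinOrder h) → Finite H

/-! ### Rows -/

/-- The complexity of the vertex groups of a one-edge splitting is smaller. -/
def StmtRK : Prop := ∀ (G : Type) [Group G] [IsFreeGroup G] (Q : Set G) (T : GT G), FinRk G →
  CI Q → Adm Q T → T.One → (∀ x : T.X, ∃ g : G, g • x ≠ x) →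
    ∀ v : T.X, FinRk (stabilizer G v) ∧ cx (tr Q (stabilizer G v)) < cx Q

/-- One step of the hierarchy: the blow-up. -/
def StmtUp : Prop := ∀ (G : Type) [Group G] [IsFreeGroup G] (Q : Set G) (T : GT G), CI Q →
  Adm Q T → T.Cocpt → (∀ v : T.X, ∃ Y : GT (stabilizer G v), Hier (tr Q (stabilizer G v)) Y) →
    ∃ Z : GT G, Hier Q Z

/-- One step of the hierarchy: the one-edge splitting. -/
def StmtDown : Prop := ∀ (G : Type) [Group G] (Q : Set G) (T : GT G) (g : G), Adm Q T →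
  ¬ Ell T.X g → ∃ T' : GT G, Adm Q T' ∧ T'.One ∧ T'.Cocpt ∧ ¬ Ell T'.X g

/-- The hierarchy. -/
def StmtA : Prop := ∀ (G : Type) [Group G] [IsFreeGroup G] (Q : Set G), FinRk G → CI Q →
  (∀ g, g ∉ Q → ∃ T : GT G, Adm Q T ∧ ¬ Ell T.X g) → ∃ T : GT G, Hier Q T

/-- The free splitting. -/
def StmtB : Prop := ∀ (G : Type) [Group G] (Q : Set G) (T : GT G), Hier Q T →
  ∃ S : GT G, Spl Q S

/-- The maximal non-abelian subgroups. -/
def StmtV1 : Prop := ∀ (G : Type) [Group G] [IsFreeGroup G] (Q : Set G) (T : GT G),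
  Hier Q T → VcFin Q

/-- The deep subgroup has finite index. -/
def StmtV2 : Prop := ∀ (G : Type) [Group G] [IsFreeGroup G] (Q : Set G), CI Q → VcFin Q →
  ∀ (B : Type) [Group B] (τ : B →* Out G), (∀ b α, mkOut G α = τ b → Pres Q α) →
    (∀ b V, MaxQ Q V → ∃ N : ℕ, 0 < N ∧ ∃ α, Cz (τ b ^ N) V α) → (Deep Q τ).FiniteIndex

/-- The twisting numbers. -/
def StmtV3 : Prop := ∀ (G : Type) [Group G] [IsFreeGroup G] (Q : Set G), CI Q → VcFin Q →
  ∀ (B : Type) [Group B] (τ : B →* Out G), ∃ Θ : Set (B → ℤ), Θ.Finite ∧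
    (∀ θ ∈ Θ, ∀ a ∈ Deep Q τ, ∀ b ∈ Deep Q τ, θ (a * b) = θ a + θ b) ∧
    (∀ (γ : MulAut B) (β : MulAut G), Pres Q β →
      (∀ b, mkOut G β * τ b * (mkOut G β)⁻¹ = τ (γ b)) →
        (∀ d, γ d ∈ Deep Q τ ↔ d ∈ Deep Q τ) ∧
          ∀ θ ∈ Θ, ∃ θ' ∈ Θ, ∀ d ∈ Deep Q τ, θ' (γ d) = θ d) ∧
    ∀ d ∈ Deep Q τ, (∀ θ ∈ Θ, θ d = 0) → Agree Q (τ d)

/-- The stabiliser of a class is centralised. -/
def StmtV4 : Prop := ∀ (G : Type) [Group G] [IsFreeGroup G] (Q : Set G), CI Q → VcFin Q →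
  ∀ φ : Out G, (∀ V, MaxQ Q V → ∃ α, Cz φ V α) → Agree Q φ → ∀ (W : Subgroup G) (a : G),
    a ≠ 1 → Nab W → (∀ w ∈ W, Rel Q a (w * a * w⁻¹)) → ∃ α, Cz φ W α

/-- Periodic elements. -/
def StmtQ : Prop := ∀ (G : Type) [Group G] [IsFreeGroup G] (Φ : Set (Out G)),
  CI (QS Φ) ∧ (∀ α, Nm Φ (mkOut G α) → Pres (QS Φ) α) ∧
  (∀ φ ∈ Φ, ∀ T, TwD Φ φ T → Adm (QS Φ) T ∧ (∀ g, Ell T.X g → Per φ g) ∧
    ∀ (A : Set G) (F₀ : Subgroup G), QS Φ ⊆ A → F₀.Normal → F₀.FiniteIndex → H3 A F₀ φ) ∧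
  ∀ (A : Set G) (F₀ : Subgroup G), H3 A F₀ 1 ∧
    ∀ ψ ψ', Commute ψ ψ' → H3 A F₀ ψ → H3 A F₀ ψ' → H3 A F₀ (ψ * ψ')

/-- The output of the block. -/
def StmtT10 : Prop := ∀ (F : Type) [Group F] [IsFreeGroup F], Group.FG F → ∀ Φ : Set (Out F),
  (∀ φ ∈ Φ, ∃ T, TwD Φ φ T) → ∃ S : GT F, S.Cocpt ∧ S.Triv ∧ (∀ g ∈ QS Φ, Ell S.X g) ∧
    (∀ α : MulAut F, Nm Φ (mkOut F α) → ∀ g, Ell S.X (α g) ↔ Ell S.X g) ∧
    (∀ F₀ : Subgroup F, F₀.Normal → F₀.FiniteIndex → ∀ l : List (Out F), (∀ φ ∈ l, φ ∈ Φ) →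
      l.Pairwise Commute → H3 {g | Ell S.X g} F₀ l.prod) ∧
    ∀ (B : Type) [Group B] (τ : B →* Out F), (∀ b, τ b ∈ Φ ∧ Nm Φ (τ b)) →
      ∃ (D : Subgroup B) (Θ : Set (B → ℤ)), D.FiniteIndex ∧ Θ.Finite ∧
        (∀ θ ∈ Θ, ∀ a ∈ D, ∀ b ∈ D, θ (a * b) = θ a + θ b) ∧
        (∀ (γ : MulAut B) (ψ : Out F), Nm Φ ψ → (∀ b, ψ * τ b * ψ⁻¹ = τ (γ b)) →
          (∀ d, γ d ∈ D ↔ d ∈ D) ∧ ∀ θ ∈ Θ, ∃ θ' ∈ Θ, ∀ d ∈ D, θ' (γ d) = θ d) ∧
        ∀ d ∈ D, (∀ θ ∈ Θ, θ d = 0) → ∀ W : Subgroup F, (∀ w ∈ W, Ell S.X w) → Nab W →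
          ∃ α, Cz (τ d) W α

end Pool.Agent.MP_3ce0a0_al.Q2T10
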